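import Pool.Agent.X246.AFSR.Average

/-!
# Case (ii): `π ^ d = N`
-/

set_option autoImplicit false

namespace Pool.Agent.X246.AFSR

/-- The size function in case (ii): `φ(∑ u_i π^i) = max_i (d log_N |u_i| + i)`, the maximum over
all `i` with `u_i ≠ 0` (and `φ(0) = 0`, the supremum of the empty set of real numbers in Mathlib;
this value does not matter since `φ ≥ 0`). -/
noncomputable def phiII {R : Type} [CommRing R] (N d : ℕ) (b : Module.Basis (Fin d) ℤ R)
    (z : R) : ℝ :=
  ⨆ i : {i : Fin d // b.repr z i ≠ 0}, (d * Real.logb N |(b.repr z i : ℝ)| + ((i : Fin d) : ℕ))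

section

variable {R : Type} [CommRing R] (N e : ℕ) (b : Module.Basis (Fin (e + 1)) ℤ R)

/-- The weights. -/
noncomputable def wt (k : ℕ) : ℝ := (N : ℝ) ^ ((k : ℝ) / ((e + 1 : ℕ) : ℝ))

theorem wt_zero : wt N e 0 = 1 := by simp [wt]

theorem wt_succ (hN : 2 ≤ N) (k : ℕ) :
    wt N e (k + 1) = (N : ℝ) ^ ((1 : ℝ) / ((e + 1 : ℕ) : ℝ)) * wt N e k := by
  have hN' : (0 : ℝ) < N := by exact_mod_cast (by omega : 0 < N)
  unfold wt
  rw [← Real.rpow_add hN']
  congr 1
  push_cast
  ring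

theorem wt_last : wt N e (e + 1) = N := by
  unfold wt
  have : ((e + 1 : ℕ) : ℝ) ≠ 0 := by positivity
  rw [div_self this, Real.rpow_one]

theorem one_le_wt (hN : 2 ≤ N) (k : ℕ) : 1 ≤ wt N e k := by
  have hN' : (1 : ℝ) ≤ N := by exact_mod_cast (by omega : 1 ≤ N)
  exact Real.one_le_rpow hN' (by positivity)

theorem wt_le (hN : 2 ≤ N) (k : ℕ) (hk : k ≤ e + 1) : wt N e k ≤ N := by
  have hN' : (1 : ℝ) ≤ N := by exact_mod_cast (by omega : 1 ≤ N)
  rw [← wt_last N e]
  unfold wt
  apply Real.rpow_le_rpow_of_exponent_le hN'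
  have : (k : ℝ) ≤ ((e + 1 : ℕ) : ℝ) := by exact_mod_cast hk
  exact div_le_div_of_nonneg_right this (by positivity)

/-- one term of the norm -/
noncomputable def term (x : R) (i : Fin (e + 1)) : ℝ := |(b.repr x i : ℝ)| * wt N e i

/-- The norm. -/
noncomputable def nm (x : R) : ℝ :=
  Finset.univ.sup' ⟨0, Finset.mem_univ _⟩ (term N e b x)

theorem term_le_nm (x : R) (i : Fin (e + 1)) : term N e b x i ≤ nm N e b x :=
  Finset.le_sup' (term N e b x) (Finset.mem_univ i)

theorem nm_le {x : R} {c : ℝ} (h : ∀ i, term N e b x i ≤ c) : nm N e b x ≤ c :=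
  Finset.sup'_le _ _ (fun i _ => h i)

theorem exists_eq_nm (x : R) : ∃ i, nm N e b x = term N e b x i := by
  obtain ⟨i, _, hi⟩ := Finset.exists_mem_eq_sup' (s := Finset.univ)
    ⟨(0 : Fin (e + 1)), Finset.mem_univ _⟩ (term N e b x)
  exact ⟨i, hi⟩

theorem nm_nonneg (x : R) : 0 ≤ nm N e b x :=
  le_trans (mul_nonneg (abs_nonneg _) (Real.rpow_nonneg (Nat.cast_nonneg _) _))
    (term_le_nm N e b x 0)

theorem nm_int (c : ℤ) (x : R) : nm N e b ((c : R) * x) = |(c : ℝ)| * nm N e b x := by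
  have ht : ∀ i, term N e b ((c : R) * x) i = |(c : ℝ)| * term N e b x i := by
    intro i
    unfold term
    rw [← zsmul_eq_mul, map_smul, Finsupp.smul_apply, smul_eq_mul]
    push_cast
    rw [abs_mul]
    ring
  apply le_antisymm
  · apply nm_le
    intro i
    rw [ht]
    exact mul_le_mul_of_nonneg_left (term_le_nm N e b x i) (abs_nonneg _)
  · obtain ⟨i, hi⟩ := exists_eq_nm N e b x
    rw [hi, ← ht]
    exact term_le_nm N e b _ i

theorem nm_add (x y : R) : nm N e b (x + y) ≤ nm N e b x + nm N e b y := by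
  apply nm_le
  intro i
  refine le_trans ?_ (add_le_add (term_le_nm N e b x i) (term_le_nm N e b y i))
  unfold term
  rw [map_add, Finsupp.add_apply, ← add_mul]
  push_cast
  exact mul_le_mul_of_nonneg_right (abs_add_le _ _) (Real.rpow_nonneg (Nat.cast_nonneg _) _)

theorem nm_zero : nm N e b 0 = 0 := by
  have := nm_int N e b 0 0
  simpa using this

theorem eq_sum (π : R) (hb : ∀ i : Fin (e + 1), b i = π ^ (i : ℕ)) (x : R) :
    x = ∑ i : Fin (e + 1), (b.repr x i : R) * π ^ (i : ℕ) := by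
  conv_lhs => rw [← b.sum_repr x]
  apply Finset.sum_congr rfl
  intro i _
  rw [hb, zsmul_eq_mul]

/-- The coordinates of `π x`. -/
theorem repr_pi (π : R) (hb : ∀ i : Fin (e + 1), b i = π ^ (i : ℕ)) (hπ : π ^ (e + 1) = (N : R))
    (x : R) : b.repr (π * x) 0 = N * b.repr x (Fin.last e) ∧
      ∀ j : Fin e, b.repr (π * x) j.succ = b.repr x j.castSucc := by
  obtain ⟨c, hc⟩ : ∃ c : Fin (e + 1) → ℤ, c = Fin.cons (N * b.repr x (Fin.last e))
    (fun j : Fin e => b.repr x j.castSucc) := ⟨_, rfl⟩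
  have h1 : π * x = ∑ i, c i • b i := by
    conv_lhs => rw [eq_sum e b π hb x, Fin.sum_univ_castSucc]
    rw [Fin.sum_univ_succ, hc]
    simp only [Fin.cons_zero, Fin.cons_succ, hb, zsmul_eq_mul, Fin.val_zero, pow_zero, mul_one,
      Fin.val_last, Fin.val_castSucc, Fin.val_succ]
    rw [mul_add, Finset.mul_sum]
    push_cast
    rw [add_comm]
    congr 1
    · linear_combination (b.repr x (Fin.last e) : R) * hπ
    · apply Finset.sum_congr rfl
      intro j _
      ring
  have h2 : ∀ i, b.repr (π * x) i = c i := by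
    intro i
    rw [h1, b.repr_sum_self]
  constructor
  · rw [h2, hc, Fin.cons_zero]
  · intro j
    rw [h2, hc, Fin.cons_succ]

theorem nm_pi (hN : 2 ≤ N) (π : R) (hb : ∀ i : Fin (e + 1), b i = π ^ (i : ℕ))
    (hπ : π ^ (e + 1) = (N : R)) (x : R) :
    nm N e b (π * x) = (N : ℝ) ^ ((1 : ℝ) / ((e + 1 : ℕ) : ℝ)) * nm N e b x := by
  obtain ⟨h0, hs⟩ := repr_pi N e b π hb hπ x
  have hN' : (0 : ℝ) < N := by exact_mod_cast (by omega : 0 < N)
  have hc : (0 : ℝ) ≤ (N : ℝ) ^ ((1 : ℝ) / ((e + 1 : ℕ) : ℝ)) := Real.rpow_nonneg hN'.le _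
  have t0 : term N e b (π * x) 0 =
      (N : ℝ) ^ ((1 : ℝ) / ((e + 1 : ℕ) : ℝ)) * term N e b x (Fin.last e) := by
    unfold term
    rw [h0, Fin.val_zero, wt_zero, mul_one, Fin.val_last]
    push_cast
    rw [abs_mul, abs_of_pos hN']
    have h1 := wt_succ N e hN e
    rw [wt_last] at h1
    calc (N : ℝ) * |(b.repr x (Fin.last e) : ℝ)|
        = ((N : ℝ) ^ ((1 : ℝ) / ((e + 1 : ℕ) : ℝ)) * wt N e e) * |(b.repr x (Fin.last e) : ℝ)| := by
          rw [← h1]
      _ = _ := by push_cast; ring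
  have ts : ∀ j : Fin e, term N e b (π * x) j.succ =
      (N : ℝ) ^ ((1 : ℝ) / ((e + 1 : ℕ) : ℝ)) * term N e b x j.castSucc := by
    intro j
    unfold term
    rw [hs, Fin.val_succ, Fin.val_castSucc, wt_succ N e hN]
    ring
  apply le_antisymm
  · apply nm_le
    intro i
    refine Fin.cases ?_ (fun j => ?_) i
    · rw [t0]
      exact mul_le_mul_of_nonneg_left (term_le_nm N e b x _) hc
    · rw [ts]
      exact mul_le_mul_of_nonneg_left (term_le_nm N e b x _) hc
  · obtain ⟨i, hi⟩ := exists_eq_nm N e b x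
    rw [hi]
    refine Fin.lastCases ?_ (fun j => ?_) i
    · rw [← t0]
      exact term_le_nm N e b _ _
    · rw [← ts]
      exact term_le_nm N e b _ _

theorem nm_pi_pow (hN : 2 ≤ N) (π : R) (hb : ∀ i : Fin (e + 1), b i = π ^ (i : ℕ))
    (hπ : π ^ (e + 1) = (N : R)) (k : ℕ) (x : R) :
    nm N e b (π ^ k * x) = wt N e k * nm N e b x := by
  induction k with
  | zero => rw [wt_zero]; simp
  | succ k ih => rw [pow_succ', mul_assoc, nm_pi N e b hN π hb hπ, ih, wt_succ N e hN, mul_assoc]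

theorem nm_mul (hN : 2 ≤ N) (π : R) (hb : ∀ i : Fin (e + 1), b i = π ^ (i : ℕ))
    (hπ : π ^ (e + 1) = (N : R)) (x y : R) :
    nm N e b (x * y) ≤ (e + 1) * (nm N e b x * nm N e b y) := by
  have h1 : x * y = ∑ i : Fin (e + 1), (b.repr x i : R) * (π ^ (i : ℕ) * y) := by
    conv_lhs => rw [eq_sum e b π hb x, Finset.sum_mul]
    apply Finset.sum_congr rfl
    intro i _
    ring
  have h2 : nm N e b (∑ i : Fin (e + 1), (b.repr x i : R) * (π ^ (i : ℕ) * y)) ≤
      ∑ i : Fin (e + 1), nm N e b ((b.repr x i : R) * (π ^ (i : ℕ) * y)) :=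
    Finset.le_sum_of_subadditive (nm N e b) (nm_zero N e b).le (nm_add N e b) _ _
  rw [h1]
  refine h2.trans ?_
  have h3 : ∀ i ∈ (Finset.univ : Finset (Fin (e + 1))),
      nm N e b ((b.repr x i : R) * (π ^ (i : ℕ) * y)) ≤ nm N e b x * nm N e b y := by
    intro i _
    rw [nm_int, nm_pi_pow N e b hN π hb hπ, ← mul_assoc]
    exact mul_le_mul_of_nonneg_right (term_le_nm N e b x i) (nm_nonneg N e b y)
  refine (Finset.sum_le_card_nsmul _ _ _ h3).trans (le_of_eq ?_)
  rw [Finset.card_univ, Fintype.card_fin, nsmul_eq_mul]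
  push_cast
  ring

/-- Case (ii) as a setting. -/
noncomputable def settingII (hN : 2 ≤ N) (π : R) (hb : ∀ i : Fin (e + 1), b i = π ^ (i : ℕ))
    (hπ : π ^ (e + 1) = (N : R)) : Setting R where
  N := N
  hN := hN
  π := π
  d := e + 1
  hd := by omega
  b := b
  nrm := nm N e b
  K := (e + 1) + N
  hK := by
    have h1 : (0 : ℝ) ≤ N := Nat.cast_nonneg N
    have h2 : (0 : ℝ) ≤ e := Nat.cast_nonneg e
    linarith
  nrm_zero := nm_zero N e b
  one_le := by
    intro x hx
    have hex : ∃ i, b.repr x i ≠ 0 := by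
      by_contra hcon
      push Not at hcon
      apply hx
      rw [eq_sum e b π hb x]
      apply Finset.sum_eq_zero
      intro i _
      rw [hcon i]
      simp
    obtain ⟨i, hi⟩ := hex
    refine le_trans ?_ (term_le_nm N e b x i)
    unfold term
    have h1 := one_le_wt N e hN i
    have h2 : (1 : ℝ) ≤ |(b.repr x i : ℝ)| := by
      have : 1 ≤ |b.repr x i| := Int.one_le_abs hi
      exact_mod_cast this
    nlinarith
  nrm_add := nm_add N e b
  nrm_neg := by
    intro x
    have := nm_int N e b (-1) x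
    push_cast at this
    rw [neg_one_mul, abs_neg, abs_one, one_mul] at this
    exact this
  nrm_nat := by
    intro m x
    have := nm_int N e b (m : ℤ) x
    push_cast at this
    rw [this, abs_of_nonneg (Nat.cast_nonneg m)]
  nrm_mul := by
    intro x y
    refine (nm_mul N e b hN π hb hπ x y).trans ?_
    apply mul_le_mul_of_nonneg_right _ (mul_nonneg (nm_nonneg N e b x) (nm_nonneg N e b y))
    have h1 : (0 : ℝ) ≤ N := Nat.cast_nonneg N
    linarith
  nrm_pi := fun x => nm_pi N e b hN π hb hπ x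
  coord_le := by
    intro x i
    have h1 := one_le_wt N e hN i
    have h2 := term_le_nm N e b x i
    have h3 : |(b.repr x i : ℝ)| ≤ term N e b x i := le_mul_of_one_le_right (abs_nonneg _) h1
    refine (h3.trans h2).trans (le_mul_of_one_le_left (nm_nonneg N e b x) ?_)
    have h4 : (0 : ℝ) ≤ N := Nat.cast_nonneg N
    have h5 : (0 : ℝ) ≤ e := Nat.cast_nonneg e
    linarith
  le_coord := by
    intro x M hM
    have hM0 : 0 ≤ M := (abs_nonneg _).trans (hM 0)
    apply nm_le
    intro i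
    unfold term
    have h1 := wt_le N e hN i (by omega)
    have h0 := one_le_wt N e hN i
    have h5 : (0 : ℝ) ≤ e := Nat.cast_nonneg e
    calc |(b.repr x i : ℝ)| * wt N e i ≤ M * N :=
          mul_le_mul (hM i) h1 (by linarith) hM0
      _ ≤ ((e + 1) + N) * M := by nlinarith
  digit := by
    intro x
    have hNpos : (0 : ℤ) < N := by exact_mod_cast (by omega : 0 < N)
    have c0 := Int.emod_nonneg (b.repr x 0) hNpos.ne'
    have c1 := Int.emod_lt_of_pos (b.repr x 0) hNpos
    refine ⟨(b.repr x 0 % N).toNat, by omega, ?_⟩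
    have e1 : (((b.repr x 0 % N).toNat : ℕ) : R) = ((b.repr x 0 % N : ℤ) : R) := by
      have : (((b.repr x 0 % N).toNat : ℕ) : ℤ) = b.repr x 0 % N := Int.toNat_of_nonneg c0
      rw [← this]
      push_cast
      rfl
    have e2 : (b.repr x 0 : R) = ((b.repr x 0 % N : ℤ) : R) + (N : R) * ((b.repr x 0 / N : ℤ) : R) := by
      have := Int.emod_add_mul_ediv (b.repr x 0) N
      conv_lhs => rw [← this]
      push_cast
      rfl
    have hx := eq_sum e b π hb x
    rw [Fin.sum_univ_succ] at hx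
    have e3 : ∑ i : Fin e, (b.repr x i.succ : R) * π ^ ((i.succ : Fin (e + 1)) : ℕ) =
        π * ∑ i : Fin e, (b.repr x i.succ : R) * π ^ (i : ℕ) := by
      rw [Finset.mul_sum]
      apply Finset.sum_congr rfl
      intro i _
      rw [Fin.val_succ]
      ring
    rw [e3] at hx
    simp only [Fin.val_zero, pow_zero, mul_one] at hx
    rw [e1]
    refine ⟨(∑ i : Fin e, (b.repr x i.succ : R) * π ^ (i : ℕ)) +
      π ^ e * ((b.repr x 0 / N : ℤ) : R), ?_⟩
    linear_combination hx + e2 - ((b.repr x 0 / N : ℤ) : R) * hπ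
  digit_inj := by
    rintro c c' hc hc' ⟨z, hz⟩
    have g1 := (repr_pi N e b π hb hπ z).1
    rw [← hz] at g1
    have g2 : ((c : R) - c') = ((c : ℤ) - c') • b 0 := by
      rw [hb, zsmul_eq_mul]
      push_cast
      simp
    rw [g2, map_smul, b.repr_self, Finsupp.smul_apply, Finsupp.single_eq_same, smul_eq_mul,
      mul_one] at g1
    have hdvd : (N : ℤ) ∣ (c : ℤ) - c' := ⟨_, g1⟩
    have habs : |(c : ℤ) - c'| < N := by rw [abs_lt]; omega
    have := Int.eq_zero_of_abs_lt_dvd hdvd habs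
    omega
  pi_dvd := ⟨π ^ e, by rw [← hπ, pow_succ']⟩

theorem phiII_eq (hN : 2 ≤ N) (π : R) (hb : ∀ i : Fin (e + 1), b i = π ^ (i : ℕ))
    (hπ : π ^ (e + 1) = (N : R)) :
    (settingII N e b hN π hb hπ).phi = phiII N (e + 1) b := by
  have hN1 : (1 : ℝ) < N := by exact_mod_cast (by omega : 1 < N)
  have hN0 : (0 : ℝ) < N := by linarith
  ext z
  change ((e + 1 : ℕ) : ℝ) * Real.logb N (nm N e b z) = _
  have hlog : ∀ i, b.repr z i ≠ 0 → ((e + 1 : ℕ) : ℝ) * Real.logb N (term N e b z i) =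
      ((e + 1 : ℕ) : ℝ) * Real.logb N |(b.repr z i : ℝ)| + (i : ℕ) := by
    intro i hi
    have h1 : |(b.repr z i : ℝ)| ≠ 0 := abs_ne_zero.2 (by exact_mod_cast hi)
    have h2 : wt N e i ≠ 0 := (lt_of_lt_of_le one_pos (one_le_wt N e hN i)).ne'
    unfold term
    rw [Real.logb_mul h1 h2]
    unfold wt
    rw [Real.logb_rpow hN0 hN1.ne']
    have h3 : ((e + 1 : ℕ) : ℝ) ≠ 0 := by positivity
    field_simp
  by_cases hz : z = 0
  · subst hz
    unfold phiII
    rw [nm_zero, Real.logb_zero, mul_zero]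
    haveI : IsEmpty {i : Fin (e + 1) // b.repr (0 : R) i ≠ 0} := ⟨fun i => i.2 (by simp)⟩
    rw [Real.iSup_of_isEmpty]
  · obtain ⟨i, hi⟩ := exists_eq_nm N e b z
    have h1 := (settingII N e b hN π hb hπ).one_le z hz
    change 1 ≤ nm N e b z at h1
    have hi0 : b.repr z i ≠ 0 := by
      intro h0
      rw [hi] at h1
      unfold term at h1
      rw [h0] at h1
      simp at h1
      linarith
    rw [hi, hlog i hi0]
    unfold phiII
    apply le_antisymm
    · exact le_ciSup (f := fun i : {i : Fin (e + 1) // b.repr z i ≠ 0} =>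
        (((e + 1 : ℕ) : ℝ) * Real.logb N |(b.repr z i : ℝ)| + ((i : Fin (e + 1)) : ℕ)))
        (Set.finite_range _).bddAbove ⟨i, hi0⟩
    · haveI : Nonempty {i : Fin (e + 1) // b.repr z i ≠ 0} := ⟨⟨i, hi0⟩⟩
      apply ciSup_le
      rintro ⟨j, hj⟩
      simp only
      rw [← hlog j hj, ← hlog i hi0]
      apply mul_le_mul_of_nonneg_left _ (Nat.cast_nonneg _)
      have hjpos : 0 < term N e b z j := by
        unfold term
        have h2 := one_le_wt N e hN j
        have h3 : 0 < |(b.repr z j : ℝ)| := abs_pos.2 (by exact_mod_cast hj)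
        positivity
      apply Real.logb_le_logb_of_le hN1 hjpos
      rw [← hi]
      exact term_le_nm N e b z j

end

end Pool.Agent.X246.AFSR
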