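import Pool.Agent.X246.AFSR.Count

/-!
# The average complexity
-/

set_option autoImplicit false

namespace Pool.Agent.X246.AFSR

/-- `g` is invertible modulo `π`. -/
def InvMod {R : Type} [CommRing R] (π g : R) : Prop := ∃ h, π ∣ g * h - 1

/-- The sequence `s` of digits is the output of the AFSR given by `f / g`: the `π`-adic number
`∑ s_i π^i` is `f / g`, i.e. `g ∑_{i < m} s_i π^i` is congruent to `f` modulo `π ^ m` for
all `m`. -/
def IsOutput {R : Type} [CommRing R] (π f g : R) (s : ℕ → ℕ) : Prop :=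
  ∀ m, π ^ m ∣ f - g * ∑ i ∈ Finset.range m, ((s i : ℕ) : R) * π ^ i

/-- The sizes of the AFSRs whose first `n` outputs are `a_0, …, a_{n-1}`, where `φ` is the size
function on `R`. -/
def sizes {R : Type} [CommRing R] (N : ℕ) (π : R) (φ : R → ℝ) {n : ℕ} (a : Fin n → Fin N) :
    Set ℝ :=
  {x | ∃ (s : ℕ → Fin N) (f g : R), (∀ i : Fin n, s i = a i) ∧ InvMod π g ∧
    IsOutput π f g (fun i => (s i : ℕ)) ∧ x = max (φ f) (φ g)}

/-- The complexity of a finite sequence: the least size of an AFSR whose first `n` outputs are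
`a_0, …, a_{n-1}`. -/
noncomputable def lam {R : Type} [CommRing R] (N : ℕ) (π : R) (φ : R → ℝ) {n : ℕ}
    (a : Fin n → Fin N) : ℝ := sInf (sizes N π φ a)

/-- The average of the complexity over all sequences of length `n`. -/
noncomputable def Efin {R : Type} [CommRing R] (N : ℕ) (π : R) (φ : R → ℝ) (n : ℕ) : ℝ :=
  (∑ a : Fin n → Fin N, lam N π φ a) / (N : ℝ) ^ n

namespace Setting

variable {R : Type} [CommRing R] (S : Setting R)

/-- The size function. -/
noncomputable def phi (z : R) : ℝ := S.d * Real.logb S.N (S.nrm z)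

theorem one_ltN : (1 : ℝ) < S.N := by
  have := S.hN
  exact_mod_cast (by omega : 1 < S.N)

theorem max_phi (f : R) {g : R} (hg : g ≠ 0) :
    max (S.phi f) (S.phi g) = S.d * Real.logb S.N (S.nrm2 (f, g)) := by
  have h1 := S.one_le g hg
  have hd := S.dpos
  have hN := S.one_ltN
  unfold phi nrm2
  simp only
  rcases le_total (S.nrm f) (S.nrm g) with h | h
  · rw [max_eq_right h]
    apply max_eq_right
    apply mul_le_mul_of_nonneg_left _ hd.le
    by_cases hf : f = 0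
    · rw [hf, S.nrm_zero, Real.logb_zero]
      exact Real.logb_nonneg hN h1
    · exact Real.logb_le_logb_of_le hN (lt_of_lt_of_le one_pos (S.one_le f hf)) h
  · rw [max_eq_left h]
    apply max_eq_left
    apply mul_le_mul_of_nonneg_left _ hd.le
    exact Real.logb_le_logb_of_le hN (lt_of_lt_of_le one_pos h1) h

theorem invMod_ne_zero {g : R} (hg : InvMod S.π g) : g ≠ 0 := by
  rintro rfl
  obtain ⟨h, hh⟩ := hg
  have h1 : S.π ∣ ((1 : ℕ) : R) - ((0 : ℕ) : R) := by
    rw [← dvd_neg]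
    convert hh using 1
    push_cast
    ring
  have := S.hN
  exact absurd (S.digit_inj 1 0 (by omega) (by omega) h1) one_ne_zero

theorem isCoprime {g : R} (hg : InvMod S.π g) : IsCoprime g S.π := by
  obtain ⟨h, k, hk⟩ := hg
  exact ⟨h, -k, by linear_combination hk⟩

theorem exists_output (f : R) {g : R} (hg : InvMod S.π g) :
    ∃ s : ℕ → Fin S.N, IsOutput S.π f g (fun i => (s i : ℕ)) := by
  obtain ⟨h, k, hk⟩ := hg
  have h1 : ∀ x : R, ∃ (c : Fin S.N) (y : R), x - g * ((c : ℕ) : R) = S.π * y := by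
    intro x
    obtain ⟨c, hc, z, hz⟩ := S.digit (h * x)
    refine ⟨⟨c, hc⟩, -k * x + g * z, ?_⟩
    simp only
    linear_combination (-x) * hk + g * hz
  choose c y hy using h1
  refine ⟨fun i => c (y^[i] f), ?_⟩
  intro m
  refine ⟨y^[m] f, ?_⟩
  induction m with
  | zero => simp
  | succ m ih =>
    rw [Finset.sum_range_succ, Function.iterate_succ_apply', pow_succ]
    have := hy (y^[m] f)
    linear_combination ih + S.π ^ m * this

theorem sum_eq_val {n : ℕ} (s : ℕ → Fin S.N) :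
    ∑ i ∈ Finset.range n, ((s i : ℕ) : R) * S.π ^ i = S.val (fun i : Fin n => s i) := by
  unfold val
  rw [Finset.sum_range]

theorem mem_sizes [IsDomain R] {n : ℕ} (a : Fin n → Fin S.N) (x : ℝ) :
    x ∈ sizes S.N S.π S.phi a ↔ ∃ v ∈ S.Lat a, InvMod S.π v.2 ∧
      x = S.d * Real.logb S.N (S.nrm2 v) := by
  constructor
  · rintro ⟨s, f, g, hs, hg, ho, rfl⟩
    refine ⟨(f, g), ?_, hg, S.max_phi f (S.invMod_ne_zero hg)⟩
    have h1 := ho n
    rw [S.sum_eq_val] at h1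
    have h2 : (fun i : Fin n => s i) = a := by
      ext i
      rw [hs i]
    rw [h2] at h1
    change S.π ^ n ∣ f - S.val a * g
    rwa [mul_comm]
  · rintro ⟨⟨f, g⟩, hv, hg, rfl⟩
    obtain ⟨s, hs⟩ := S.exists_output f hg
    refine ⟨s, f, g, ?_, hg, hs, (S.max_phi f (S.invMod_ne_zero hg)).symm⟩
    have h1 := hs n
    rw [S.sum_eq_val] at h1
    have h2 := dvd_sub (show S.π ^ n ∣ f - S.val a * g from hv) h1
    have h3 : S.π ^ n ∣ g * (S.val (fun i : Fin n => s i) - S.val a) := by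
      convert h2 using 1
      ring
    have h4 : S.π ^ n ∣ S.val (fun i : Fin n => s i) - S.val a :=
      ((S.isCoprime hg).pow_right (n := n)).symm.dvd_of_dvd_mul_left h3
    have h5 := S.val_inj _ _ h4
    intro i
    exact congrFun h5 i

theorem isLeast_lam [IsDomain R] {n : ℕ} (a : Fin n → Fin S.N) :
    IsLeast (sizes S.N S.π S.phi a) (lam S.N S.π S.phi a) := by
  obtain ⟨v0, hv0⟩ : ∃ v0 : R × R, v0 = (S.val a, 1) := ⟨_, rfl⟩
  have h1 : v0 ∈ S.Lat a ∧ InvMod S.π v0.2 := by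
    rw [hv0]
    refine ⟨?_, 1, by simp⟩
    change S.π ^ n ∣ S.val a - S.val a * 1
    simp
  have hfin : {v : R × R | v ∈ S.Lat a ∧ InvMod S.π v.2 ∧ S.nrm2 v ≤ S.nrm2 v0}.Finite :=
    (S.finite_ball2 (S.nrm2 v0)).subset (fun v hv => hv.2.2)
  obtain ⟨v, hv, hmin⟩ := Set.exists_min_image _ S.nrm2 hfin ⟨v0, h1.1, h1.2, le_rfl⟩
  have hpos : ∀ w : R × R, InvMod S.π w.2 → 0 < S.nrm2 w := fun w hw =>
    lt_of_lt_of_le one_pos (S.one_le_nrm2 (fun h => S.invMod_ne_zero hw (congrArg Prod.snd h)))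
  have hleast : IsLeast (sizes S.N S.π S.phi a) (S.d * Real.logb S.N (S.nrm2 v)) := by
    refine ⟨(S.mem_sizes a _).2 ⟨v, hv.1, hv.2.1, rfl⟩, ?_⟩
    intro x hx
    obtain ⟨w, hw, hwi, rfl⟩ := (S.mem_sizes a x).1 hx
    apply mul_le_mul_of_nonneg_left _ S.dpos.le
    apply Real.logb_le_logb_of_le S.one_ltN (hpos v hv.2.1)
    by_cases h : S.nrm2 w ≤ S.nrm2 v0
    · exact hmin w ⟨hw, hwi, h⟩
    · exact hv.2.2.trans (le_of_lt (not_le.1 h))
  have h2 : lam S.N S.π S.phi a = S.d * Real.logb S.N (S.nrm2 v) := hleast.csInf_eq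
  rw [h2]
  exact hleast

/-- The size of a shortest vector. -/
noncomputable def t1 [IsDomain R] {n : ℕ} (a : Fin n → Fin S.N) : ℝ :=
  S.d * Real.logb S.N (S.r1 a)

theorem t1_nonneg [IsDomain R] {n : ℕ} (a : Fin n → Fin S.N) : 0 ≤ S.t1 a :=
  mul_nonneg S.dpos.le (Real.logb_nonneg S.one_ltN (S.one_le_r1 a))

theorem t1_le_lam [IsDomain R] {n : ℕ} (a : Fin n → Fin S.N) : S.t1 a ≤ lam S.N S.π S.phi a := by
  obtain ⟨v, hv, hvi, hx⟩ := (S.mem_sizes a _).1 (S.isLeast_lam a).1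
  rw [hx]
  apply mul_le_mul_of_nonneg_left _ S.dpos.le
  apply Real.logb_le_logb_of_le S.one_ltN (lt_of_lt_of_le one_pos (S.one_le_r1 a))
  exact S.sv_min a hv (fun h => S.invMod_ne_zero hvi (congrArg Prod.snd h))

/-- The additive constant in Lemma A. -/
noncomputable def CA : ℝ := S.d * Real.logb S.N (10 * S.K ^ 4 * S.N)

theorem CA_nonneg : 0 ≤ S.CA := by
  apply mul_nonneg S.dpos.le
  apply Real.logb_nonneg S.one_ltN
  have h1 := S.one_ltN
  have h2 : 1 ≤ S.K ^ 4 := one_le_pow₀ S.hK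
  nlinarith

theorem lam_le [IsDomain R] {n : ℕ} (a : Fin n → Fin S.N) :
    lam S.N S.π S.phi a ≤ n + S.CA - S.t1 a := by
  obtain ⟨u, hu, hu1, hun⟩ := S.lemmaA a
  have hui : InvMod S.π u.2 := ⟨1, by rwa [mul_one]⟩
  have h1 := (S.isLeast_lam a).2 ((S.mem_sizes a _).2 ⟨u, hu, hui, rfl⟩)
  have hupos : 0 < S.nrm2 u := lt_of_lt_of_le one_pos
    (S.one_le_nrm2 (fun h => S.invMod_ne_zero hui (congrArg Prod.snd h)))
  have hrpos : 0 < S.r1 a := lt_of_lt_of_le one_pos (S.one_le_r1 a)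
  have hK := S.Kpos
  have hN := S.Npos
  have h2 := Real.logb_le_logb_of_le S.one_ltN (mul_pos hupos hrpos) hun
  rw [Real.logb_mul hupos.ne' hrpos.ne', Real.logb_mul (by positivity) (S.A_pos n).ne'] at h2
  have h3 : Real.logb S.N (S.A n) = n / S.d := by
    rw [A, Real.logb_rpow hN S.one_ltN.ne']
  rw [h3] at h2
  have hd := S.dpos
  have h4 := mul_le_mul_of_nonneg_left h2 hd.le
  have h5 : S.d * (Real.logb S.N (10 * S.K ^ 4 * S.N) + n / S.d) = S.CA + n := by
    unfold CA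
    field_simp
  rw [h5] at h4
  unfold t1
  linarith

theorem le_card_filter {z : ℝ} {n : ℕ} (hz : z ≤ n) :
    z ≤ (((Finset.range (n + 1)).filter (fun k : ℕ => (k : ℝ) ≤ z)).card : ℝ) := by
  rcases lt_or_ge z 0 with h | h
  · exact h.le.trans (Nat.cast_nonneg _)
  · have h1 : Finset.range (⌊z⌋₊ + 1) ⊆ (Finset.range (n + 1)).filter (fun k : ℕ => (k : ℝ) ≤ z) := by
      intro k hk
      rw [Finset.mem_range] at hk
      rw [Finset.mem_filter, Finset.mem_range]
      have h2 : (k : ℝ) ≤ z := (Nat.le_floor_iff h).1 (by omega)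
      refine ⟨?_, h2⟩
      have h3 : (k : ℝ) ≤ n := h2.trans hz
      have h4 : k ≤ n := by exact_mod_cast h3
      omega
    have h2 := Finset.card_le_card h1
    rw [Finset.card_range] at h2
    have h3 : ((⌊z⌋₊ + 1 : ℕ) : ℝ) ≤ (((Finset.range (n + 1)).filter
      (fun k : ℕ => (k : ℝ) ≤ z)).card : ℝ) := by exact_mod_cast h2
    push_cast at h3
    have h4 := Nat.lt_floor_add_one z
    linarith

theorem average [IsDomain R] [UniqueFactorizationMonoid R] : ∃ C : ℝ, ∀ n : ℕ,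
    |Efin S.N S.π S.phi n - (n : ℝ) / 2| ≤ C := by
  classical
  obtain ⟨C, hC, hB⟩ := S.lemmaB
  refine ⟨S.CA + 2 * C, fun n => ?_⟩
  have hN := S.Npos
  have hd := S.dpos
  have hNn : (0 : ℝ) < (S.N : ℝ) ^ n := pow_pos hN n
  have hsum : ∑ a : Fin n → Fin S.N, ((n : ℝ) / 2 - S.t1 a) ≤ 2 * C * (S.N : ℝ) ^ n := by
    have h1 : ∀ a : Fin n → Fin S.N, (n : ℝ) / 2 - S.t1 a ≤
        ∑ k ∈ Finset.range (n + 1), if (k : ℝ) ≤ (n : ℝ) / 2 - S.t1 a then (1 : ℝ) else 0 := by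
      intro a
      have h2 : (n : ℝ) / 2 - S.t1 a ≤ n := by
        have := S.t1_nonneg a
        have h3 : (0 : ℝ) ≤ n := Nat.cast_nonneg n
        linarith
      refine (le_card_filter h2).trans (le_of_eq ?_)
      rw [Finset.sum_boole]
    have h2 : ∀ k ∈ Finset.range (n + 1),
        ∑ a : Fin n → Fin S.N, (if (k : ℝ) ≤ (n : ℝ) / 2 - S.t1 a then (1 : ℝ) else 0) ≤
          C * (S.N : ℝ) ^ n * (1 / 4) ^ k := by
      intro k _
      rw [Finset.sum_boole]
      set ρ : ℝ := (S.N : ℝ) ^ (((n : ℝ) / 2 - k) / S.d) with hρ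
      have hρpos : 0 < ρ := Real.rpow_pos_of_pos hN _
      have h3 := hB n ρ hρpos (Finset.univ.filter
        (fun a : Fin n → Fin S.N => (k : ℝ) ≤ (n : ℝ) / 2 - S.t1 a)) (by
        intro a ha
        rw [Finset.mem_filter] at ha
        have h4 := ha.2
        have hr : 0 < S.r1 a := lt_of_lt_of_le one_pos (S.one_le_r1 a)
        rw [hρ, ← Real.logb_le_iff_le_rpow S.one_ltN hr, le_div_iff₀ hd]
        unfold t1 at h4
        linarith)
      refine h3.trans ?_
      have h5 : ρ ^ (2 * S.d) = (S.N : ℝ) ^ n * ((1 : ℝ) / (S.N : ℝ) ^ 2) ^ k := by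
        rw [hρ, ← Real.rpow_natCast, ← Real.rpow_mul hN.le]
        have h6 : ((n : ℝ) / 2 - k) / S.d * ((2 * S.d : ℕ) : ℝ) = n + -(2 * k : ℝ) := by
          push_cast
          field_simp
          ring
        rw [h6, Real.rpow_add hN, Real.rpow_natCast, Real.rpow_neg hN.le]
        congr 1
        rw [one_div, inv_pow, ← pow_mul]
        congr 1
        rw [← Real.rpow_natCast]
        push_cast
        rfl
      rw [h5]
      have h7 : ((1 : ℝ) / (S.N : ℝ) ^ 2) ^ k ≤ (1 / 4) ^ k := by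
        apply pow_le_pow_left₀ (by positivity)
        apply one_div_le_one_div_of_le (by norm_num)
        have : (2 : ℝ) ≤ S.N := by exact_mod_cast S.hN
        nlinarith
      calc C * ((S.N : ℝ) ^ n * ((1 : ℝ) / (S.N : ℝ) ^ 2) ^ k)
          ≤ C * ((S.N : ℝ) ^ n * (1 / 4) ^ k) := by
            apply mul_le_mul_of_nonneg_left _ hC.le
            exact mul_le_mul_of_nonneg_left h7 hNn.le
        _ = C * (S.N : ℝ) ^ n * (1 / 4) ^ k := by ring
    have hgeo : ∀ m : ℕ, ∑ k ∈ Finset.range m, ((1 : ℝ) / 4) ^ k ≤ 2 := by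
      intro m
      have h1 : ∀ m : ℕ, ∑ k ∈ Finset.range m, ((1 : ℝ) / 4) ^ k = 4 / 3 - 4 / 3 * (1 / 4) ^ m := by
        intro m
        induction m with
        | zero => simp
        | succ m ih => rw [Finset.sum_range_succ, ih, pow_succ]; ring
      rw [h1]
      have : (0 : ℝ) ≤ 4 / 3 * (1 / 4) ^ m := by positivity
      linarith
    calc ∑ a : Fin n → Fin S.N, ((n : ℝ) / 2 - S.t1 a)
        ≤ ∑ a : Fin n → Fin S.N, ∑ k ∈ Finset.range (n + 1),
          (if (k : ℝ) ≤ (n : ℝ) / 2 - S.t1 a then (1 : ℝ) else 0) :=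
          Finset.sum_le_sum (fun a _ => h1 a)
      _ = ∑ k ∈ Finset.range (n + 1), ∑ a : Fin n → Fin S.N,
          (if (k : ℝ) ≤ (n : ℝ) / 2 - S.t1 a then (1 : ℝ) else 0) := Finset.sum_comm
      _ ≤ ∑ k ∈ Finset.range (n + 1), C * (S.N : ℝ) ^ n * (1 / 4) ^ k := Finset.sum_le_sum h2
      _ = C * (S.N : ℝ) ^ n * ∑ k ∈ Finset.range (n + 1), ((1 : ℝ) / 4) ^ k := by
          rw [Finset.mul_sum]
      _ ≤ C * (S.N : ℝ) ^ n * 2 := mul_le_mul_of_nonneg_left (hgeo _) (by positivity)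
      _ = 2 * C * (S.N : ℝ) ^ n := by ring
  have hcard : ∑ _a : Fin n → Fin S.N, (1 : ℝ) = (S.N : ℝ) ^ n := by
    simp
  have hlow : ∑ a : Fin n → Fin S.N, ((n : ℝ) / 2 - lam S.N S.π S.phi a) ≤
      2 * C * (S.N : ℝ) ^ n := by
    refine le_trans (Finset.sum_le_sum (fun a _ => ?_)) hsum
    have := S.t1_le_lam a
    linarith
  have hup : ∑ a : Fin n → Fin S.N, (lam S.N S.π S.phi a - (n : ℝ) / 2) ≤
      (S.CA + 2 * C) * (S.N : ℝ) ^ n := by
    calc ∑ a : Fin n → Fin S.N, (lam S.N S.π S.phi a - (n : ℝ) / 2)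
        ≤ ∑ a : Fin n → Fin S.N, (S.CA * 1 + ((n : ℝ) / 2 - S.t1 a)) := by
          refine Finset.sum_le_sum (fun a _ => ?_)
          have := S.lam_le a
          linarith
      _ = S.CA * (S.N : ℝ) ^ n + ∑ a : Fin n → Fin S.N, ((n : ℝ) / 2 - S.t1 a) := by
          rw [Finset.sum_add_distrib, ← Finset.mul_sum, hcard]
      _ ≤ S.CA * (S.N : ℝ) ^ n + 2 * C * (S.N : ℝ) ^ n := by linarith
      _ = (S.CA + 2 * C) * (S.N : ℝ) ^ n := by ring
  have hE : (Efin S.N S.π S.phi n - (n : ℝ) / 2) * (S.N : ℝ) ^ n =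
      ∑ a : Fin n → Fin S.N, (lam S.N S.π S.phi a - (n : ℝ) / 2) := by
    unfold Efin
    rw [Finset.sum_sub_distrib, sub_mul, div_mul_cancel₀ _ hNn.ne']
    congr 1
    rw [Finset.sum_const, Finset.card_univ, Fintype.card_fun, Fintype.card_fin, Fintype.card_fin,
      nsmul_eq_mul]
    push_cast
    ring
  have hCA := S.CA_nonneg
  rw [abs_le]
  constructor
  · have h1 : -(S.CA + 2 * C) * (S.N : ℝ) ^ n ≤
        (Efin S.N S.π S.phi n - (n : ℝ) / 2) * (S.N : ℝ) ^ n := by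
      rw [hE]
      have h2 : ∑ a : Fin n → Fin S.N, (lam S.N S.π S.phi a - (n : ℝ) / 2) =
          -∑ a : Fin n → Fin S.N, ((n : ℝ) / 2 - lam S.N S.π S.phi a) := by
        rw [← Finset.sum_neg_distrib]
        apply Finset.sum_congr rfl
        intro a _
        ring
      rw [h2]
      nlinarith
    exact le_of_mul_le_mul_right h1 hNn
  · have h1 : (Efin S.N S.π S.phi n - (n : ℝ) / 2) * (S.N : ℝ) ^ n ≤
        (S.CA + 2 * C) * (S.N : ℝ) ^ n := by
      rw [hE]
      exact hup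
    exact le_of_mul_le_mul_right h1 hNn

end Setting

end Pool.Agent.X246.AFSR
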