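import Mathlib

/-!
# Average complexity of finite sequences over `ℤ[π]`: the abstract setting
-/

set_option autoImplicit false

namespace Pool.Agent.X246.AFSR

/-- A ring `R = ℤ[π]`, free of rank `d` over the integers, with a norm `nrm` (the `d`-th root of
`N ^ φ`). -/
structure Setting (R : Type) [CommRing R] where
  N : ℕ
  hN : 2 ≤ N
  π : R
  d : ℕ
  hd : 1 ≤ d
  b : Module.Basis (Fin d) ℤ R
  nrm : R → ℝ
  K : ℝ
  hK : 1 ≤ K
  nrm_zero : nrm 0 = 0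
  one_le : ∀ x, x ≠ 0 → 1 ≤ nrm x
  nrm_add : ∀ x y, nrm (x + y) ≤ nrm x + nrm y
  nrm_neg : ∀ x, nrm (-x) = nrm x
  nrm_nat : ∀ (m : ℕ) x, nrm ((m : R) * x) = m * nrm x
  nrm_mul : ∀ x y, nrm (x * y) ≤ K * (nrm x * nrm y)
  nrm_pi : ∀ x, nrm (π * x) = (N : ℝ) ^ ((1 : ℝ) / d) * nrm x
  coord_le : ∀ x i, |((b.repr x i : ℤ) : ℝ)| ≤ K * nrm x
  le_coord : ∀ x (M : ℝ), (∀ i, |((b.repr x i : ℤ) : ℝ)| ≤ M) → nrm x ≤ K * M
  digit : ∀ x, ∃ c : ℕ, c < N ∧ π ∣ x - c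
  digit_inj : ∀ c c' : ℕ, c < N → c' < N → π ∣ (c : R) - c' → c = c'
  pi_dvd : π ∣ (N : R)

namespace Setting

variable {R : Type} [CommRing R] (S : Setting R)

theorem nrm_nonneg (x : R) : 0 ≤ S.nrm x := by
  by_cases h : x = 0
  · rw [h, S.nrm_zero]
  · exact zero_le_one.trans (S.one_le x h)

theorem Kpos : 0 < S.K := lt_of_lt_of_le one_pos S.hK

theorem nrm_sub (x y : R) : S.nrm (x - y) ≤ S.nrm x + S.nrm y := by
  rw [sub_eq_add_neg, ← S.nrm_neg y]
  exact S.nrm_add _ _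

theorem Npos : (0 : ℝ) < S.N := by
  have := S.hN
  exact_mod_cast (by omega : 0 < S.N)

theorem oneN : (1 : ℝ) ≤ S.N := by
  have := S.hN
  exact_mod_cast (by omega : 1 ≤ S.N)

/-- The norm of `π ^ n`. -/
noncomputable def A (n : ℕ) : ℝ := (S.N : ℝ) ^ ((n : ℝ) / S.d)

theorem dpos : (0 : ℝ) < S.d := by
  have := S.hd
  exact_mod_cast (by omega : 0 < S.d)

theorem one_le_A (n : ℕ) : 1 ≤ S.A n :=
  Real.one_le_rpow S.oneN (div_nonneg (Nat.cast_nonneg _) S.dpos.le)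

theorem A_pos (n : ℕ) : 0 < S.A n := lt_of_lt_of_le one_pos (S.one_le_A n)

theorem A_pow (n : ℕ) : S.A n ^ S.d = (S.N : ℝ) ^ n := by
  have h := S.dpos
  rw [A, ← Real.rpow_natCast, ← Real.rpow_mul S.Npos.le, div_mul_cancel₀ _ h.ne', Real.rpow_natCast]

theorem A_succ (n : ℕ) : S.A (n + 1) = (S.N : ℝ) ^ ((1 : ℝ) / S.d) * S.A n := by
  rw [A, A, ← Real.rpow_add S.Npos]
  congr 1
  push_cast
  ring

theorem nrm_pi_pow (n : ℕ) (x : R) : S.nrm (S.π ^ n * x) = S.A n * S.nrm x := by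
  induction n generalizing x with
  | zero => simp [A]
  | succ n ih =>
    rw [pow_succ', mul_assoc, S.nrm_pi, ih, S.A_succ, mul_assoc]

theorem pi_ne_zero [Nontrivial R] : S.π ≠ 0 := by
  intro h
  have h1 := S.nrm_pi 1
  rw [h, zero_mul, S.nrm_zero] at h1
  have h2 := S.one_le 1 one_ne_zero
  have h3 : (0 : ℝ) < (S.N : ℝ) ^ ((1 : ℝ) / S.d) := Real.rpow_pos_of_pos S.Npos _
  have h4 : 0 < (S.N : ℝ) ^ ((1 : ℝ) / S.d) * S.nrm 1 := mul_pos h3 (by linarith)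
  linarith

include S in
theorem natCast_ne_zero [Nontrivial R] {m : ℕ} (hm : m ≠ 0) : (m : R) ≠ 0 := by
  intro h
  have h1 := S.nrm_nat m 1
  rw [h, zero_mul, S.nrm_zero] at h1
  have h2 := S.one_le 1 one_ne_zero
  have h3 : (0 : ℝ) < m := by exact_mod_cast Nat.pos_of_ne_zero hm
  have h4 : 0 < (m : ℝ) * S.nrm 1 := mul_pos h3 (by linarith)
  linarith

/-! ### Boxes and balls -/

/-- The elements whose coordinates are in `[0, m)`. -/
noncomputable def box (m : ℕ) : Finset R :=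
  (Fintype.piFinset (fun _ : Fin S.d => Finset.Ico (0 : ℤ) m)).map
    S.b.equivFun.symm.toEquiv.toEmbedding

theorem mem_box {m : ℕ} {x : R} : x ∈ S.box m ↔ ∀ i, 0 ≤ S.b.repr x i ∧ S.b.repr x i < m := by
  unfold box
  rw [Finset.mem_map_equiv, Fintype.mem_piFinset]
  simp only [Finset.mem_Ico]
  constructor
  · intro h i
    simpa using h i
  · intro h i
    simpa using h i

theorem card_box (m : ℕ) : (S.box m).card = m ^ S.d := by
  unfold box
  rw [Finset.card_map, Fintype.card_piFinset]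
  simp

theorem nrm_sub_box {m : ℕ} {x y : R} (hx : x ∈ S.box m) (hy : y ∈ S.box m) :
    S.nrm (x - y) ≤ S.K * m := by
  apply S.le_coord
  intro i
  rw [map_sub, Finsupp.sub_apply]
  have h1 := (S.mem_box.1 hx) i
  have h2 := (S.mem_box.1 hy) i
  have h3 : |S.b.repr x i - S.b.repr y i| ≤ (m : ℤ) := by rw [abs_le]; omega
  exact_mod_cast h3

theorem nrm_box {m : ℕ} {x : R} (hx : x ∈ S.box m) : S.nrm x ≤ S.K * m := by
  apply S.le_coord
  intro i
  have h1 := (S.mem_box.1 hx) i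
  have h3 : |S.b.repr x i| ≤ (m : ℤ) := by rw [abs_le]; omega
  exact_mod_cast h3

/-- Elements with all coordinates of absolute value at most `m`. -/
noncomputable def sbox (m : ℕ) : Finset R :=
  (Fintype.piFinset (fun _ : Fin S.d => Finset.Icc (-(m : ℤ)) m)).map
    S.b.equivFun.symm.toEquiv.toEmbedding

theorem mem_sbox {m : ℕ} {x : R} : x ∈ S.sbox m ↔ ∀ i, |S.b.repr x i| ≤ m := by
  unfold sbox
  rw [Finset.mem_map_equiv, Fintype.mem_piFinset]
  simp only [Finset.mem_Icc, abs_le]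
  constructor
  · intro h i
    simpa using h i
  · intro h i
    simpa using h i

theorem card_sbox (m : ℕ) : (S.sbox m).card = (2 * m + 1) ^ S.d := by
  unfold sbox
  rw [Finset.card_map, Fintype.card_piFinset]
  simp only [Int.card_Icc, Finset.prod_const, Finset.card_univ, Fintype.card_fin]
  congr 1
  omega

theorem mem_sbox_of_nrm {ρ : ℝ} {x : R} (hx : S.nrm x ≤ ρ) : x ∈ S.sbox ⌊S.K * ρ⌋₊ := by
  rw [mem_sbox]
  intro i
  have h1 : |((S.b.repr x i : ℤ) : ℝ)| ≤ S.K * ρ :=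
    (S.coord_le x i).trans (mul_le_mul_of_nonneg_left hx S.Kpos.le)
  have h2 : ((S.b.repr x i).natAbs : ℝ) ≤ S.K * ρ := by
    rw [Nat.cast_natAbs]; push_cast; exact h1
  have h3 : (S.b.repr x i).natAbs ≤ ⌊S.K * ρ⌋₊ := Nat.le_floor h2
  rw [Int.abs_eq_natAbs]
  exact_mod_cast h3

theorem finite_ball (ρ : ℝ) : {x : R | S.nrm x ≤ ρ}.Finite :=
  (S.sbox ⌊S.K * ρ⌋₊).finite_toSet.subset (fun _ hx => S.mem_sbox_of_nrm hx)

/-- Any finite set of elements of norm at most `ρ ≥ 1` has at most `(3 K ρ) ^ d` elements. -/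
theorem card_le_of_nrm {s : Finset R} {ρ : ℝ} (hρ : 1 ≤ ρ) (hs : ∀ x ∈ s, S.nrm x ≤ ρ) :
    (s.card : ℝ) ≤ (3 * S.K * ρ) ^ S.d := by
  have h1 : s.card ≤ (S.sbox ⌊S.K * ρ⌋₊).card :=
    Finset.card_le_card (fun x hx => S.mem_sbox_of_nrm (hs x hx))
  rw [card_sbox] at h1
  have hK := S.hK
  have h2 : (1 : ℝ) ≤ S.K * ρ := by nlinarith
  have h3 : ((2 * ⌊S.K * ρ⌋₊ + 1 : ℕ) : ℝ) ≤ 3 * S.K * ρ := by
    push_cast
    have := Nat.floor_le (zero_le_one.trans h2)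
    nlinarith
  calc (s.card : ℝ) ≤ (((2 * ⌊S.K * ρ⌋₊ + 1) ^ S.d : ℕ) : ℝ) := by exact_mod_cast h1
    _ = ((2 * ⌊S.K * ρ⌋₊ + 1 : ℕ) : ℝ) ^ S.d := by push_cast; ring
    _ ≤ (3 * S.K * ρ) ^ S.d := pow_le_pow_left₀ (Nat.cast_nonneg _) h3 _

/-! ### Digit expansions -/

/-- The element with the given digits. -/
def val {n : ℕ} (a : Fin n → Fin S.N) : R := ∑ i : Fin n, ((a i : ℕ) : R) * S.π ^ (i : ℕ)

theorem val_succ {n : ℕ} (a : Fin (n + 1) → Fin S.N) :
    S.val a = ((a 0 : ℕ) : R) + S.π * S.val (fun i : Fin n => a i.succ) := by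
  unfold val
  rw [Fin.sum_univ_succ, Finset.mul_sum]
  congr 1
  · simp
  · apply Finset.sum_congr rfl
    intro i _
    rw [Fin.val_succ, pow_succ]
    ring

theorem val_inj [IsDomain R] : ∀ {n : ℕ} (a a' : Fin n → Fin S.N), S.π ^ n ∣ S.val a - S.val a' →
    a = a'
  | 0, a, a', _ => by ext i; exact i.elim0
  | n + 1, a, a', h => by
    rw [S.val_succ, S.val_succ] at h
    have h1 : S.π ∣ ((a 0 : ℕ) : R) - ((a' 0 : ℕ) : R) := by
      have h2 : S.π ∣ ((a 0 : ℕ) : R) + S.π * S.val (fun i : Fin n => a i.succ) -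
          (((a' 0 : ℕ) : R) + S.π * S.val (fun i : Fin n => a' i.succ)) :=
        (Dvd.intro_left (S.π ^ n) (by rw [pow_succ])).trans h
      have h3 := dvd_sub h2 (Dvd.intro (S.val (fun i : Fin n => a i.succ) -
        S.val (fun i : Fin n => a' i.succ)) rfl : S.π ∣ S.π * (S.val (fun i : Fin n => a i.succ) -
        S.val (fun i : Fin n => a' i.succ)))
      convert h3 using 1
      ring
    have h0 : ((a 0 : ℕ)) = (a' 0 : ℕ) := S.digit_inj _ _ (a 0).2 (a' 0).2 h1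
    have h2 : S.π ^ n ∣ S.val (fun i : Fin n => a i.succ) - S.val (fun i : Fin n => a' i.succ) := by
      rw [h0, pow_succ'] at h
      have h3 : ((a' 0 : ℕ) : R) + S.π * S.val (fun i : Fin n => a i.succ) -
          (((a' 0 : ℕ) : R) + S.π * S.val (fun i : Fin n => a' i.succ)) =
          S.π * (S.val (fun i : Fin n => a i.succ) - S.val (fun i : Fin n => a' i.succ)) := by ring
      rw [h3] at h
      exact (mul_dvd_mul_iff_left S.pi_ne_zero).1 h
    have h4 := val_inj _ _ h2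
    ext i
    refine Fin.cases ?_ (fun j => ?_) i
    · exact h0
    · exact congrArg Fin.val (congrFun h4 j)

theorem val_surj : ∀ (n : ℕ) (x : R), ∃ a : Fin n → Fin S.N, S.π ^ n ∣ x - S.val a
  | 0, x => ⟨fun i => i.elim0, by simp⟩
  | n + 1, x => by
    obtain ⟨c, hc, y, hy⟩ := S.digit x
    obtain ⟨a, z, hz⟩ := val_surj n y
    refine ⟨Fin.cons ⟨c, hc⟩ a, z, ?_⟩
    rw [S.val_succ]
    simp only [Fin.cons_zero, Fin.cons_succ]
    rw [pow_succ']
    linear_combination hy + S.π * hz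

/-! ### The lattices -/

/-- The size of a pair. -/
noncomputable def nrm2 (v : R × R) : ℝ := max (S.nrm v.1) (S.nrm v.2)

theorem nrm2_nonneg (v : R × R) : 0 ≤ S.nrm2 v := (S.nrm_nonneg _).trans (le_max_left _ _)

theorem one_le_nrm2 {v : R × R} (hv : v ≠ 0) : 1 ≤ S.nrm2 v := by
  by_cases h : v.1 = 0
  · have h2 : v.2 ≠ 0 := fun h2 => hv (Prod.ext h h2)
    exact (S.one_le _ h2).trans (le_max_right _ _)
  · exact (S.one_le _ h).trans (le_max_left _ _)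

/-- The lattice of a sequence. -/
def Lat {n : ℕ} (a : Fin n → Fin S.N) : Set (R × R) := {v | S.π ^ n ∣ v.1 - S.val a * v.2}

theorem Lat.sub {n : ℕ} {a : Fin n → Fin S.N} {v w : R × R} (hv : v ∈ S.Lat a) (hw : w ∈ S.Lat a) :
    v - w ∈ S.Lat a := by
  have := dvd_sub (show S.π ^ n ∣ v.1 - S.val a * v.2 from hv)
    (show S.π ^ n ∣ w.1 - S.val a * w.2 from hw)
  change S.π ^ n ∣ (v.1 - w.1) - S.val a * (v.2 - w.2)
  convert this using 1
  ring

theorem finite_ball2 (ρ : ℝ) : {v : R × R | S.nrm2 v ≤ ρ}.Finite := by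
  refine ((S.finite_ball ρ).prod (S.finite_ball ρ)).subset ?_
  intro v hv
  exact ⟨show S.nrm v.1 ≤ ρ from (le_max_left (S.nrm v.1) (S.nrm v.2)).trans hv,
    show S.nrm v.2 ≤ ρ from (le_max_right (S.nrm v.1) (S.nrm v.2)).trans hv⟩

theorem exists_shortest [Nontrivial R] [IsDomain R] {n : ℕ} (a : Fin n → Fin S.N) :
    ∃ v ∈ S.Lat a, v ≠ 0 ∧ ∀ w ∈ S.Lat a, w ≠ 0 → S.nrm2 v ≤ S.nrm2 w := by
  set v0 : R × R := (S.π ^ n, 0) with hv0
  have h0 : v0 ∈ S.Lat a := by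
    change S.π ^ n ∣ S.π ^ n - S.val a * 0
    rw [mul_zero, sub_zero]
  have h1 : v0 ≠ 0 := by
    intro h
    exact pow_ne_zero n S.pi_ne_zero (congrArg Prod.fst h)
  have hfin : {v : R × R | v ∈ S.Lat a ∧ v ≠ 0 ∧ S.nrm2 v ≤ S.nrm2 v0}.Finite :=
    (S.finite_ball2 (S.nrm2 v0)).subset (fun v hv => hv.2.2)
  obtain ⟨v, hv, hmin⟩ := Set.exists_min_image _ S.nrm2 hfin ⟨v0, h0, h1, le_rfl⟩
  refine ⟨v, hv.1, hv.2.1, ?_⟩
  intro w hw hw0
  by_cases h : S.nrm2 w ≤ S.nrm2 v0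
  · exact hmin w ⟨hw, hw0, h⟩
  · exact hv.2.2.trans (le_of_lt (not_le.1 h))

/-- A shortest nonzero vector. -/
noncomputable def sv [IsDomain R] {n : ℕ} (a : Fin n → Fin S.N) : R × R :=
  Classical.choose (S.exists_shortest a)

theorem sv_mem [IsDomain R] {n : ℕ} (a : Fin n → Fin S.N) : S.sv a ∈ S.Lat a :=
  (Classical.choose_spec (S.exists_shortest a)).1

theorem sv_ne [IsDomain R] {n : ℕ} (a : Fin n → Fin S.N) : S.sv a ≠ 0 :=
  (Classical.choose_spec (S.exists_shortest a)).2.1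

theorem sv_min [IsDomain R] {n : ℕ} (a : Fin n → Fin S.N) {w : R × R} (hw : w ∈ S.Lat a)
    (hw0 : w ≠ 0) : S.nrm2 (S.sv a) ≤ S.nrm2 w :=
  (Classical.choose_spec (S.exists_shortest a)).2.2 w hw hw0

/-- The length of a shortest nonzero vector. -/
noncomputable def r1 [IsDomain R] {n : ℕ} (a : Fin n → Fin S.N) : ℝ := S.nrm2 (S.sv a)

theorem one_le_r1 [IsDomain R] {n : ℕ} (a : Fin n → Fin S.N) : 1 ≤ S.r1 a := S.one_le_nrm2 (S.sv_ne a)

/-- Pigeonhole principle in a box: if `m ^ (2 d) > N ^ n k` then there are more than `k` pairs in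
the box whose differences are in the lattice. -/
theorem pigeon {n : ℕ} (a : Fin n → Fin S.N) {m k : ℕ} (h : S.N ^ n * k < m ^ (2 * S.d)) :
    ∃ s : Finset (R × R), k < s.card ∧ (∀ v ∈ s, v.1 ∈ S.box m ∧ v.2 ∈ S.box m) ∧
      ∀ v ∈ s, ∀ w ∈ s, v - w ∈ S.Lat a := by
  classical
  choose cl hcl using fun v : R × R => S.val_surj n (v.1 - S.val a * v.2)
  have h1 : (Finset.univ : Finset (Fin n → Fin S.N)).card * k < (S.box m ×ˢ S.box m).card := by
    rw [Finset.card_product, S.card_box, Finset.card_univ, Fintype.card_fun, Fintype.card_fin,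
      Fintype.card_fin, ← pow_add, ← two_mul]
    exact h
  obtain ⟨c, _, hc⟩ := Finset.exists_lt_card_fiber_of_mul_lt_card_of_maps_to (f := cl)
    (fun v _ => Finset.mem_univ _) h1
  refine ⟨_, hc, ?_, ?_⟩
  · intro v hv
    rw [Finset.mem_filter, Finset.mem_product] at hv
    exact hv.1
  · intro v hv w hw
    rw [Finset.mem_filter] at hv hw
    have h2 := dvd_sub (hcl v) (hcl w)
    rw [hv.2, hw.2] at h2
    change S.π ^ n ∣ (v.1 - w.1) - S.val a * (v.2 - w.2)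
    convert h2 using 1
    ring

theorem nrm2_sub_box {m : ℕ} {v w : R × R} (hv : v.1 ∈ S.box m ∧ v.2 ∈ S.box m)
    (hw : w.1 ∈ S.box m ∧ w.2 ∈ S.box m) : S.nrm2 (v - w) ≤ S.K * m :=
  max_le (S.nrm_sub_box hv.1 hw.1) (S.nrm_sub_box hv.2 hw.2)

end Setting

end Pool.Agent.X246.AFSR
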