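import Pool.Agent.X246.AFSR.Average

/-!
# Case (i): `π ^ 2 = -N`
-/

set_option autoImplicit false

namespace Pool.Agent.X246.AFSR

/-- The size function in case (i): `φ(u + vπ) = log_N (u² + N v²)`. -/
noncomputable def phiI {R : Type} [CommRing R] (N : ℕ) (b : Module.Basis (Fin 2) ℤ R) (z : R) : ℝ :=
  Real.logb N ((b.repr z 0 : ℝ) ^ 2 + N * (b.repr z 1 : ℝ) ^ 2)

section

variable {R : Type} [CommRing R] (N : ℕ) (b : Module.Basis (Fin 2) ℤ R)

/-- The complex number of an element. -/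
noncomputable def cx (z : R) : ℂ := (b.repr z 0 : ℂ) + (b.repr z 1 : ℂ) * (√(N : ℝ) : ℂ) * Complex.I

theorem norm_cx (z : R) : ‖cx N b z‖ = √((b.repr z 0 : ℝ) ^ 2 + N * (b.repr z 1 : ℝ) ^ 2) := by
  have h1 : cx N b z = ((b.repr z 0 : ℝ) : ℂ) + (((b.repr z 1 : ℝ) * √(N : ℝ) : ℝ) : ℂ) * Complex.I := by
    unfold cx
    push_cast
    rfl
  rw [h1, Complex.norm_add_mul_I, mul_pow, Real.sq_sqrt (Nat.cast_nonneg N), mul_comm (N : ℝ)]

theorem cx_add (x y : R) : cx N b (x + y) = cx N b x + cx N b y := by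
  unfold cx
  rw [map_add, Finsupp.add_apply, Finsupp.add_apply]
  push_cast
  ring

theorem cx_zero : cx N b 0 = 0 := by simp [cx]

theorem eq_coord (h0 : b 0 = 1) (π : R) (h1 : b 1 = π) (x : R) :
    x = (b.repr x 0 : R) + (b.repr x 1 : R) * π := by
  conv_lhs => rw [← b.sum_repr x]
  rw [Fin.sum_univ_two, h0, h1, zsmul_eq_mul, zsmul_eq_mul, mul_one]

theorem repr_mk (h0 : b 0 = 1) (π : R) (h1 : b 1 = π) (u v : ℤ) :
    b.repr ((u : R) + (v : R) * π) 0 = u ∧ b.repr ((u : R) + (v : R) * π) 1 = v := by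
  have h : (u : R) + (v : R) * π = u • b 0 + v • b 1 := by
    rw [h0, h1, zsmul_eq_mul, zsmul_eq_mul, mul_one]
  rw [h, map_add, map_smul, map_smul, b.repr_self, b.repr_self]
  constructor
  · simp [Finsupp.single_apply]
  · simp [Finsupp.single_apply]

theorem cx_mul (h0 : b 0 = 1) (π : R) (h1 : b 1 = π) (hπ : π ^ 2 = -(N : R)) (x y : R) :
    cx N b (x * y) = cx N b x * cx N b y := by
  have hx := eq_coord b h0 π h1 x
  have hy := eq_coord b h0 π h1 y
  have hxy : x * y = ((b.repr x 0 * b.repr y 0 - N * (b.repr x 1 * b.repr y 1) : ℤ) : R) +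
      ((b.repr x 0 * b.repr y 1 + b.repr x 1 * b.repr y 0 : ℤ) : R) * π := by
    conv_lhs => rw [hx, hy]
    push_cast
    linear_combination ((b.repr x 1 : R) * (b.repr y 1 : R)) * hπ
  obtain ⟨e0, e1⟩ := repr_mk b h0 π h1 (b.repr x 0 * b.repr y 0 - N * (b.repr x 1 * b.repr y 1))
    (b.repr x 0 * b.repr y 1 + b.repr x 1 * b.repr y 0)
  rw [← hxy] at e0 e1
  have hs : ((√(N : ℝ) : ℝ) : ℂ) ^ 2 = N := by
    rw [← Complex.ofReal_pow, Real.sq_sqrt (Nat.cast_nonneg N)]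
    simp
  unfold cx
  rw [e0, e1]
  push_cast
  linear_combination (-((b.repr x 1 : ℂ) * (b.repr y 1 : ℂ)) * (√(N : ℝ) : ℂ) ^ 2) * Complex.I_sq +
    ((b.repr x 1 : ℂ) * (b.repr y 1 : ℂ)) * hs

/-- Case (i) as a setting. -/
noncomputable def settingI (hN : 2 ≤ N) (h0 : b 0 = 1) (π : R) (h1 : b 1 = π)
    (hπ : π ^ 2 = -(N : R)) : Setting R where
  N := N
  hN := hN
  π := π
  d := 2
  hd := by norm_num
  b := b
  nrm := fun z => ‖cx N b z‖
  K := N + 1
  hK := by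
    have : (0 : ℝ) ≤ N := Nat.cast_nonneg N
    linarith
  nrm_zero := by rw [cx_zero, norm_zero]
  one_le := by
    intro x hx
    rw [norm_cx, Real.one_le_sqrt]
    have hz : b.repr x 0 ≠ 0 ∨ b.repr x 1 ≠ 0 := by
      by_contra hcon
      push Not at hcon
      apply hx
      rw [eq_coord b h0 π h1 x, hcon.1, hcon.2]
      simp
    have hN' : (1 : ℝ) ≤ N := by exact_mod_cast (by omega : 1 ≤ N)
    have p0 : (0 : ℝ) ≤ (b.repr x 0 : ℝ) ^ 2 := sq_nonneg _
    have p1 : (0 : ℝ) ≤ (b.repr x 1 : ℝ) ^ 2 := sq_nonneg _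
    rcases hz with h | h
    · have : (1 : ℝ) ≤ (b.repr x 0 : ℝ) ^ 2 := by
        have h2 : 1 ≤ (b.repr x 0) ^ 2 := by
          have := sq_nonneg (b.repr x 0)
          have h3 : (b.repr x 0) ^ 2 ≠ 0 := pow_ne_zero 2 h
          omega
        exact_mod_cast h2
      nlinarith
    · have : (1 : ℝ) ≤ (b.repr x 1 : ℝ) ^ 2 := by
        have h2 : 1 ≤ (b.repr x 1) ^ 2 := by
          have := sq_nonneg (b.repr x 1)
          have h3 : (b.repr x 1) ^ 2 ≠ 0 := pow_ne_zero 2 h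
          omega
        exact_mod_cast h2
      nlinarith
  nrm_add := by
    intro x y
    rw [cx_add]
    exact norm_add_le _ _
  nrm_neg := by
    intro x
    have : cx N b (-x) = -cx N b x := by
      have h := cx_add N b x (-x)
      rw [add_neg_cancel, cx_zero] at h
      linear_combination -h
    rw [this, norm_neg]
  nrm_nat := by
    intro m x
    rw [cx_mul N b h0 π h1 hπ, norm_mul]
    congr 1
    have h := repr_mk b h0 π h1 (m : ℤ) 0
    have h2 : ((m : ℤ) : R) + ((0 : ℤ) : R) * π = (m : R) := by push_cast; ring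
    rw [h2] at h
    unfold cx
    rw [h.1, h.2]
    simp
  nrm_mul := by
    intro x y
    rw [cx_mul N b h0 π h1 hπ, norm_mul]
    apply le_mul_of_one_le_left (by positivity)
    have : (0 : ℝ) ≤ N := Nat.cast_nonneg N
    linarith
  nrm_pi := by
    intro x
    rw [cx_mul N b h0 π h1 hπ, norm_mul]
    congr 1
    have h := repr_mk b h0 π h1 0 1
    have h2 : ((0 : ℤ) : R) + ((1 : ℤ) : R) * π = π := by push_cast; ring
    rw [h2] at h
    rw [norm_cx, h.1, h.2]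
    have e : ((0 : ℤ) : ℝ) ^ 2 + N * ((1 : ℤ) : ℝ) ^ 2 = N := by push_cast; ring
    rw [e, Real.sqrt_eq_rpow]
    norm_num
  coord_le := by
    intro x i
    rw [norm_cx]
    have hN' : (1 : ℝ) ≤ N := by exact_mod_cast (by omega : 1 ≤ N)
    have p0 : (0 : ℝ) ≤ (b.repr x 0 : ℝ) ^ 2 := sq_nonneg _
    have p1 : (0 : ℝ) ≤ (b.repr x 1 : ℝ) ^ 2 := sq_nonneg _
    have hs : |(b.repr x i : ℝ)| ≤ √((b.repr x 0 : ℝ) ^ 2 + N * (b.repr x 1 : ℝ) ^ 2) := by
      apply Real.abs_le_sqrt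
      fin_cases i
      · simp only [Fin.zero_eta]; nlinarith
      · simp only [Fin.mk_one]; nlinarith
    refine hs.trans (le_mul_of_one_le_left (Real.sqrt_nonneg _) ?_)
    linarith
  le_coord := by
    intro x M hM
    rw [norm_cx]
    have hN' : (0 : ℝ) ≤ N := Nat.cast_nonneg N
    have hM0 : 0 ≤ M := (abs_nonneg _).trans (hM 0)
    have g0 : (b.repr x 0 : ℝ) ^ 2 ≤ M ^ 2 := by
      rw [← sq_abs]; exact pow_le_pow_left₀ (abs_nonneg _) (hM 0) 2
    have g1 : (b.repr x 1 : ℝ) ^ 2 ≤ M ^ 2 := by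
      rw [← sq_abs]; exact pow_le_pow_left₀ (abs_nonneg _) (hM 1) 2
    rw [Real.sqrt_le_left (by positivity)]
    nlinarith [mul_le_mul_of_nonneg_left g1 hN', sq_nonneg M, mul_nonneg hN' (sq_nonneg M),
      mul_nonneg (mul_nonneg hN' hN') (sq_nonneg M)]
  digit := by
    intro x
    have hNpos : (0 : ℤ) < N := by exact_mod_cast (by omega : 0 < N)
    have c0 := Int.emod_nonneg (b.repr x 0) hNpos.ne'
    have c1 := Int.emod_lt_of_pos (b.repr x 0) hNpos
    refine ⟨(b.repr x 0 % N).toNat, by omega, ?_⟩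
    refine ⟨(b.repr x 1 : R) - π * ((b.repr x 0 / N : ℤ) : R), ?_⟩
    have e1 : (((b.repr x 0 % N).toNat : ℕ) : R) = ((b.repr x 0 % N : ℤ) : R) := by
      have : (((b.repr x 0 % N).toNat : ℕ) : ℤ) = b.repr x 0 % N := Int.toNat_of_nonneg c0
      rw [← this]
      push_cast
      rfl
    have e2 : (b.repr x 0 : R) = ((b.repr x 0 % N : ℤ) : R) + (N : R) * ((b.repr x 0 / N : ℤ) : R) := by
      have := Int.emod_add_mul_ediv (b.repr x 0) N
      conv_lhs => rw [← this]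
      push_cast
      rfl
    rw [e1]
    have hx := eq_coord b h0 π h1 x
    linear_combination hx + e2 + ((b.repr x 0 / N : ℤ) : R) * hπ
  digit_inj := by
    rintro c c' hc hc' ⟨z, hz⟩
    have hz' := eq_coord b h0 π h1 z
    have e : (((c : ℤ) - c' : ℤ) : R) + ((0 : ℤ) : R) * π =
        ((-(N * b.repr z 1) : ℤ) : R) + ((b.repr z 0 : ℤ) : R) * π := by
      rw [hz'] at hz
      push_cast
      linear_combination hz + (b.repr z 1 : R) * hπ
    have g1 := (repr_mk b h0 π h1 ((c : ℤ) - c') 0).1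
    have g2 := (repr_mk b h0 π h1 (-(N * b.repr z 1)) (b.repr z 0)).1
    rw [e, g2] at g1
    have hdvd : (N : ℤ) ∣ (c : ℤ) - c' := ⟨-b.repr z 1, by rw [← g1]; ring⟩
    have habs : |(c : ℤ) - c'| < N := by rw [abs_lt]; omega
    have := Int.eq_zero_of_abs_lt_dvd hdvd habs
    omega
  pi_dvd := ⟨-π, by linear_combination hπ⟩

theorem phiI_eq (hN : 2 ≤ N) (h0 : b 0 = 1) (π : R) (h1 : b 1 = π) (hπ : π ^ 2 = -(N : R)) :
    (settingI N b hN h0 π h1 hπ).phi = phiI N b := by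
  ext z
  change ((2 : ℕ) : ℝ) * Real.logb N ‖cx N b z‖ = _
  unfold phiI
  rw [norm_cx]
  have hnn : 0 ≤ (b.repr z 0 : ℝ) ^ 2 + N * (b.repr z 1 : ℝ) ^ 2 := by positivity
  conv_rhs => rw [← Real.sq_sqrt hnn]
  rw [Real.logb_pow]

end

end Pool.Agent.X246.AFSR
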