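import Pool.Agent.X246.AFSR.Upper

/-!
# Counting the sequences with a short vector
-/

set_option autoImplicit false

namespace Pool.Agent.X246.AFSR

namespace Setting

variable {R : Type} [CommRing R] (S : Setting R)

theorem card_incong [IsDomain R] {z : R} (hz : z ≠ 0) (s : Finset R)
    (hs : ∀ x ∈ s, ∀ y ∈ s, z ∣ x - y → x = y) :
    (s.card : ℝ) ≤ (6 * S.K ^ 3 * S.nrm z) ^ S.d := by
  classical
  have hK := S.hK
  have hz1 := S.one_le z hz
  obtain ⟨Y, hY1, hY⟩ : ∃ Y : ℕ, 1 ≤ Y ∧ ∀ x ∈ s, S.nrm x ≤ Y := by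
    obtain ⟨B, hB⟩ := (s.image S.nrm).exists_le
    refine ⟨⌈B⌉₊ + 1, by omega, fun x hx => ?_⟩
    have h1 := hB _ (Finset.mem_image_of_mem _ hx)
    have h2 := Nat.le_ceil B
    push_cast
    linarith
  have hYr : (1 : ℝ) ≤ Y := by exact_mod_cast hY1
  set ρ : ℝ := (1 + S.K ^ 2 * S.nrm z) * Y with hρ
  have hρ1 : 1 ≤ ρ := by
    have : 0 ≤ S.K ^ 2 * S.nrm z := by positivity
    nlinarith
  have hinj : Set.InjOn (fun p : R × R => p.1 + z * p.2) (s ×ˢ S.box Y : Finset (R × R)) := by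
    rintro ⟨x, y⟩ hp ⟨x', y'⟩ hp' h
    simp only [Finset.coe_product, Set.mem_prod, Finset.mem_coe] at hp hp' h
    have h1 : x = x' := hs x hp.1 x' hp'.1 ⟨y' - y, by linear_combination h⟩
    subst h1
    have h2 : z * y = z * y' := by linear_combination h
    rw [mul_left_cancel₀ hz h2]
  have h1 := S.card_le_of_nrm (s := (s ×ˢ S.box Y).image (fun p : R × R => p.1 + z * p.2)) hρ1 (by
    intro x hx
    rw [Finset.mem_image] at hx
    obtain ⟨⟨x, y⟩, hp, rfl⟩ := hx
    rw [Finset.mem_product] at hp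
    simp only at hp ⊢
    have h2 := S.nrm_box hp.2
    calc S.nrm (x + z * y) ≤ S.nrm x + S.K * (S.nrm z * S.nrm y) :=
          (S.nrm_add _ _).trans (add_le_add le_rfl (S.nrm_mul _ _))
      _ ≤ Y + S.K * (S.nrm z * (S.K * Y)) := by
          apply add_le_add (hY x hp.1)
          apply mul_le_mul_of_nonneg_left _ (by linarith)
          exact mul_le_mul_of_nonneg_left h2 (by linarith)
      _ = ρ := by rw [hρ]; ring)
  rw [Finset.card_image_of_injOn hinj, Finset.card_product, S.card_box] at h1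
  push_cast at h1
  have h2 : (3 * S.K * ρ) ^ S.d = (3 * S.K * (1 + S.K ^ 2 * S.nrm z)) ^ S.d * (Y : ℝ) ^ S.d := by
    rw [← mul_pow, hρ]; ring_nf
  rw [h2] at h1
  have h3 : (s.card : ℝ) ≤ (3 * S.K * (1 + S.K ^ 2 * S.nrm z)) ^ S.d :=
    le_of_mul_le_mul_right h1 (by positivity)
  refine h3.trans (pow_le_pow_left₀ (by positivity) ?_ _)
  have h4 : 1 ≤ S.K ^ 2 * S.nrm z := by nlinarith
  nlinarith

/-- The number of residue classes. -/
noncomputable def q (h : R) : ℕ := Nat.card (R ⧸ Ideal.span {h})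

theorem card_quot [IsDomain R] {z : R} (hz : z ≠ 0) :
    Finite (R ⧸ Ideal.span {z}) ∧ (q z : ℝ) ≤ (6 * S.K ^ 3 * S.nrm z) ^ S.d := by
  classical
  have hsurj : Function.Surjective (Ideal.Quotient.mk (Ideal.span {z})) :=
    Ideal.Quotient.mk_surjective
  have key : ∀ t : Finset (R ⧸ Ideal.span {z}), (t.card : ℝ) ≤ (6 * S.K ^ 3 * S.nrm z) ^ S.d := by
    intro t
    have h1 := S.card_incong hz (t.image (Function.surjInv hsurj)) (by
      intro x hx y hy hxy
      rw [Finset.mem_image] at hx hy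
      obtain ⟨x, hx, rfl⟩ := hx
      obtain ⟨y, hy, rfl⟩ := hy
      have h2 : Ideal.Quotient.mk (Ideal.span {z}) (Function.surjInv hsurj x) =
          Ideal.Quotient.mk (Ideal.span {z}) (Function.surjInv hsurj y) := by
        rw [Ideal.Quotient.eq, Ideal.mem_span_singleton]
        exact hxy
      rw [Function.surjInv_eq hsurj, Function.surjInv_eq hsurj] at h2
      rw [h2])
    rwa [Finset.card_image_of_injective _ (Function.injective_surjInv hsurj)] at h1
  have hfin : Finite (R ⧸ Ideal.span {z}) := by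
    by_contra hinf
    rw [not_finite_iff_infinite] at hinf
    obtain ⟨t, ht⟩ := Infinite.exists_subset_card_eq (R ⧸ Ideal.span {z})
      (⌊(6 * S.K ^ 3 * S.nrm z) ^ S.d⌋₊ + 1)
    have h1 := key t
    rw [ht] at h1
    push_cast at h1
    have h2 := Nat.lt_floor_add_one ((6 * S.K ^ 3 * S.nrm z) ^ S.d)
    linarith
  refine ⟨hfin, ?_⟩
  haveI := Fintype.ofFinite (R ⧸ Ideal.span {z})
  unfold q
  rw [Nat.card_eq_fintype_card]
  exact key Finset.univ

include S in
theorem q_pos [IsDomain R] {z : R} (hz : z ≠ 0) : 0 < q z := by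
  haveI := (S.card_quot hz).1
  exact Nat.card_pos

include S in
theorem q_le_of_dvd [IsDomain R] {h z : R} (hz : z ≠ 0) (hd : h ∣ z) : q h ≤ q z := by
  haveI := (S.card_quot hz).1
  have hle : Ideal.span {z} ≤ Ideal.span {h} := by
    rw [Ideal.span_singleton_le_span_singleton]
    exact hd
  exact Nat.card_le_card_of_surjective (Ideal.Quotient.factor hle)
    (Ideal.Quotient.factor_surjective hle)

include S in
theorem two_mul_q_le [IsDomain R] {x h : R} (hx : ¬ IsUnit x) (hx0 : x ≠ 0) (hh : h ≠ 0) :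
    2 * q h ≤ q (x * h) := by
  haveI := (S.card_quot (mul_ne_zero hx0 hh)).1
  have hle : Ideal.span {x * h} ≤ Ideal.span {h} := by
    rw [Ideal.span_singleton_le_span_singleton]
    exact Dvd.intro_left _ rfl
  have h1 := Submodule.card_quotient_mul_card_quotient (Ideal.span {h}) (Ideal.span {x * h}) hle
  unfold q
  rw [← h1]
  apply Nat.mul_le_mul_right
  haveI : Finite (Submodule.map (Submodule.mkQ (Ideal.span {x * h})) (Ideal.span {h})) :=
    inferInstance
  have hnt : Nontrivial (Submodule.map (Submodule.mkQ (Ideal.span {x * h})) (Ideal.span {h})) := by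
    refine ⟨⟨⟨Submodule.mkQ (Ideal.span {x * h}) h,
      Submodule.mem_map_of_mem (Ideal.mem_span_singleton_self h)⟩, 0, ?_⟩⟩
    intro h2
    have h3 := congrArg Subtype.val h2
    simp only [ZeroMemClass.coe_zero] at h3
    rw [Submodule.mkQ_apply, Submodule.Quotient.mk_eq_zero, Ideal.mem_span_singleton] at h3
    obtain ⟨y, hy⟩ := h3
    apply hx
    have h4 : h * (x * y) = h * 1 := by linear_combination -hy
    exact IsUnit.of_mul_eq_one _ (mul_left_cancel₀ hh h4)
  exact Finite.one_lt_card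

include S in
theorem pow_mul_q_le [IsDomain R] {x h : R} (hx : ¬ IsUnit x) (hx0 : x ≠ 0) (hh : h ≠ 0) (k : ℕ) :
    2 ^ k * q h ≤ q (x ^ k * h) := by
  induction k with
  | zero => simp
  | succ k ih =>
    have h1 := S.two_mul_q_le hx hx0 (mul_ne_zero (pow_ne_zero k hx0) hh)
    calc 2 ^ (k + 1) * q h = 2 * (2 ^ k * q h) := by ring
      _ ≤ 2 * q (x ^ k * h) := Nat.mul_le_mul_left _ ih
      _ ≤ q (x * (x ^ k * h)) := h1
      _ = q (x ^ (k + 1) * h) := by rw [pow_succ' x k, mul_assoc]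

include S in
theorem prod_le_q [IsDomain R] {J : ℕ} (p : Fin J → R) (hp : ∀ j, Prime (p j)) (e : Fin J → ℕ)
    (s : Finset (Fin J)) : ∏ j ∈ s, 2 ^ e j ≤ q (∏ j ∈ s, p j ^ e j) := by
  classical
  induction s using Finset.induction_on with
  | empty =>
    rw [Finset.prod_empty, Finset.prod_empty]
    exact S.q_pos one_ne_zero
  | insert j s hj ih =>
    rw [Finset.prod_insert hj, Finset.prod_insert hj]
    have h0 : ∏ j ∈ s, p j ^ e j ≠ 0 :=
      Finset.prod_ne_zero_iff.2 (fun j _ => pow_ne_zero _ (hp j).ne_zero)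
    exact (Nat.mul_le_mul_left _ ih).trans
      (S.pow_mul_q_le (hp j).not_unit (hp j).ne_zero h0 (e j))

/-- The fibres. -/
theorem card_fibre [IsDomain R] {n : ℕ} {h : R} (hh : h ≠ 0) (T : Finset (Fin n → Fin S.N))
    (hT : ∀ a ∈ T, ∀ a' ∈ T, S.π ^ n ∣ (S.val a - S.val a') * h) : T.card ≤ q h := by
  classical
  rcases T.eq_empty_or_nonempty with rfl | ⟨a0, ha0⟩
  · simp
  · have h1 : ∀ a ∈ T, ∃ y, (S.val a - S.val a0) * h = S.π ^ n * y := fun a ha => hT a ha a0 ha0
    choose! y hy using h1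
    haveI := (S.card_quot hh).1
    haveI := Fintype.ofFinite (R ⧸ Ideal.span {h})
    unfold q
    rw [Nat.card_eq_fintype_card, ← Finset.card_univ]
    refine Finset.card_le_card_of_injOn (fun a => Ideal.Quotient.mk (Ideal.span {h}) (y a))
      (fun _ _ => Finset.mem_coe.2 (Finset.mem_univ _)) ?_
    intro a ha a' ha' haa
    simp only at haa
    rw [Ideal.Quotient.eq, Ideal.mem_span_singleton] at haa
    obtain ⟨z, hz⟩ := haa
    apply S.val_inj
    refine ⟨z, ?_⟩
    apply mul_right_cancel₀ hh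
    have e1 := hy a ha
    have e2 := hy a' ha'
    linear_combination e1 - e2 + S.π ^ n * hz

/-- Counting the multiples of `h` in a ball. -/
theorem card_mul_q_le [IsDomain R] {h : R} (hh : h ≠ 0) {ρ : ℝ} (s : Finset R)
    (hs : ∀ x ∈ s, h ∣ x ∧ S.nrm x ≤ ρ) (hex : ∃ g, g ≠ 0 ∧ h ∣ g ∧ S.nrm g ≤ ρ) :
    (s.card : ℝ) * q h ≤ (18 * S.K ^ 3 * ρ) ^ S.d := by
  classical
  have hK := S.hK
  have hd := S.dpos
  have hQ : (0 : ℝ) < q h := by exact_mod_cast S.q_pos hh
  obtain ⟨κ, hκ⟩ : ∃ κ : ℝ, κ = (q h : ℝ) ^ ((1 : ℝ) / S.d) := ⟨_, rfl⟩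
  have hκpos : 0 < κ := by rw [hκ]; exact Real.rpow_pos_of_pos hQ _
  have hκd : κ ^ S.d = q h := by
    rw [hκ, ← Real.rpow_natCast, ← Real.rpow_mul hQ.le, one_div, inv_mul_cancel₀ hd.ne',
      Real.rpow_one]
  have hmin : ∀ z, z ≠ 0 → h ∣ z → κ ≤ 6 * S.K ^ 3 * S.nrm z := by
    intro z hz hdz
    have h1 : (q h : ℝ) ≤ q z := by exact_mod_cast S.q_le_of_dvd hz hdz
    have h2 := h1.trans (S.card_quot hz).2
    rw [← hκd] at h2
    have hz1 := S.nrm_nonneg z
    exact (pow_le_pow_iff_left₀ hκpos.le (by positivity) (by have := S.hd; omega)).1 h2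
  obtain ⟨r, hr⟩ : ∃ r : ℝ, r = κ / (6 * S.K ^ 3) := ⟨_, rfl⟩
  have hrpos : 0 < r := by rw [hr]; positivity
  have hrmin : ∀ z, z ≠ 0 → h ∣ z → r ≤ S.nrm z := by
    intro z hz hdz
    rw [hr, div_le_iff₀ (by positivity)]
    linarith [hmin z hz hdz]
  obtain ⟨g, hg0, hgh, hgρ⟩ := hex
  have hrρ : r ≤ ρ := (hrmin g hg0 hgh).trans hgρ
  have hρ : 0 < ρ := lt_of_lt_of_le hrpos hrρ
  obtain ⟨m, hm⟩ : ∃ m : ℕ, m = ⌊2 * ρ / r⌋₊ + 1 := ⟨_, rfl⟩
  have hm1 : 2 * ρ / r < m := by rw [hm]; push_cast; exact Nat.lt_floor_add_one _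
  have hm2 : (m : ℝ) ≤ 3 * ρ / r := by
    rw [hm]; push_cast
    have h1 := Nat.floor_le (show 0 ≤ 2 * ρ / r by positivity)
    have h2 : 1 ≤ ρ / r := by rw [le_div_iff₀ hrpos]; linarith
    have h3 : 3 * ρ / r = 2 * ρ / r + ρ / r := by ring
    linarith
  have hmpos : 1 ≤ m := by omega
  have hdv : ∀ x ∈ s, ∃ x', x = h * x' := fun x hx => (hs x hx).1
  choose! f hf using hdv
  choose c hc y hy using fun x : R => S.exists_box m hmpos x
  have hcard : s.card ≤ m ^ S.d := by
    rw [← S.card_box]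
    refine Finset.card_le_card_of_injOn (fun x => c (f x)) (fun x _ => hc _) ?_
    intro x hx x' hx' hxx
    simp only at hxx
    by_contra hne
    have e1 : x - x' = (m : R) * (h * (y (f x) - y (f x'))) := by
      have h1 := hf x hx
      have h2 := hf x' hx'
      have h3 := hy (f x)
      have h4 := hy (f x')
      rw [hxx] at h3
      linear_combination h1 - h2 + h * h3 - h * h4
    have hz : h * (y (f x) - y (f x')) ≠ 0 := by
      intro h0
      rw [h0, mul_zero] at e1
      exact hne (sub_eq_zero.1 e1)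
    have h1 := hrmin _ hz (Dvd.intro _ rfl)
    have h2 : S.nrm (x - x') ≤ ρ + ρ := (S.nrm_sub _ _).trans
      (add_le_add (hs x hx).2 (hs x' hx').2)
    rw [e1, S.nrm_nat] at h2
    rw [div_lt_iff₀ hrpos] at hm1
    have h3 : (m : ℝ) * r ≤ m * S.nrm (h * (y (f x) - y (f x'))) :=
      mul_le_mul_of_nonneg_left h1 (Nat.cast_nonneg _)
    linarith
  calc (s.card : ℝ) * q h ≤ (m : ℝ) ^ S.d * κ ^ S.d := by
        rw [hκd]
        apply mul_le_mul_of_nonneg_right _ hQ.le
        exact_mod_cast hcard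
    _ = (m * κ) ^ S.d := (mul_pow _ _ _).symm
    _ ≤ (18 * S.K ^ 3 * ρ) ^ S.d := by
        apply pow_le_pow_left₀ (by positivity)
        have : (m : ℝ) * κ ≤ 3 * ρ / r * κ := mul_le_mul_of_nonneg_right hm2 hκpos.le
        refine this.trans (le_of_eq ?_)
        rw [hr]
        field_simp
        ring

/-! ### Divisors of `π ^ n` -/

section UFD

variable [IsDomain R] [UniqueFactorizationMonoid R]

theorem exists_primes {x : R} (hx : x ≠ 0) : ∃ (J : ℕ) (p : Fin J → R), (∀ j, Prime (p j)) ∧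
    Associated (∏ j, p j) x := by
  refine ⟨(UniqueFactorizationMonoid.factors x).toList.length,
    fun j => (UniqueFactorizationMonoid.factors x).toList.get j, ?_, ?_⟩
  · intro j
    apply UniqueFactorizationMonoid.prime_of_factor (a := x)
    rw [← Multiset.mem_toList]
    exact List.get_mem _ _
  · have h1 : ∏ j, (UniqueFactorizationMonoid.factors x).toList.get j =
        (UniqueFactorizationMonoid.factors x).prod := by
      rw [← Multiset.prod_toList, ← List.prod_ofFn, List.ofFn_get]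
    rw [h1]
    exact UniqueFactorizationMonoid.factors_prod hx

theorem dvd_prod {J : ℕ} {p : Fin J → R} (hp : ∀ j, Prime (p j)) (n : ℕ) (s : Finset (Fin J)) :
    ∀ h : R, h ∣ ∏ j ∈ s, p j ^ n → ∃ e : Fin J → ℕ, (∀ j, e j ≤ n) ∧
      Associated h (∏ j ∈ s, p j ^ e j) := by
  classical
  induction s using Finset.induction_on with
  | empty =>
    intro h hh
    rw [Finset.prod_empty] at hh
    exact ⟨fun _ => 0, fun _ => Nat.zero_le _, by
      rw [Finset.prod_empty, associated_one_iff_isUnit]; exact isUnit_of_dvd_one hh⟩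
  | insert j s hj ih =>
    intro h hh
    rw [Finset.prod_insert hj] at hh
    obtain ⟨u, v, hu, hv, rfl⟩ := exists_dvd_and_dvd_of_dvd_mul hh
    obtain ⟨e, he, hve⟩ := ih v hv
    obtain ⟨i, hi, hui⟩ := (dvd_prime_pow (hp j) n).1 hu
    refine ⟨fun k => if k = j then i else e k, ?_, ?_⟩
    · intro k
      by_cases hk : k = j
      · simp only [hk, if_true]; exact hi
      · simp only [hk, if_false]; exact he k
    · rw [Finset.prod_insert hj]
      simp only [if_true]
      have h1 : ∏ k ∈ s, p k ^ (if k = j then i else e k) = ∏ k ∈ s, p k ^ e k := by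
        apply Finset.prod_congr rfl
        intro k hk
        have : k ≠ j := fun h => hj (h ▸ hk)
        simp only [this, if_false]
      rw [h1]
      exact hui.mul_mul hve

theorem exists_gcd {J : ℕ} {p : Fin J → R} (hp : ∀ j, Prime (p j)) {x : R}
    (hx : Associated (∏ j, p j) x) (n : ℕ) (g : R) :
    ∃ e ∈ Fintype.piFinset (fun _ : Fin J => Finset.range (n + 1)),
      (∏ j, p j ^ e j) ∣ g ∧ (∏ j, p j ^ e j) ∣ x ^ n ∧
        ∀ y, x ^ n ∣ y * g → x ^ n ∣ y * ∏ j, p j ^ e j := by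
  classical
  letI : GCDMonoid R := UniqueFactorizationMonoid.toGCDMonoid R
  have h1 : gcd g (x ^ n) ∣ ∏ j, p j ^ n := by
    refine (gcd_dvd_right g (x ^ n)).trans ?_
    rw [Finset.prod_pow]
    exact (hx.pow_pow).symm.dvd
  obtain ⟨e, he, hge⟩ := dvd_prod hp n Finset.univ _ h1
  refine ⟨e, ?_, hge.symm.dvd.trans (gcd_dvd_left _ _), hge.symm.dvd.trans (gcd_dvd_right _ _), ?_⟩
  · rw [Fintype.mem_piFinset]
    intro j
    rw [Finset.mem_range]
    have := he j
    omega
  · intro y hy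
    have h2 : x ^ n ∣ gcd (y * g) (y * x ^ n) := dvd_gcd hy (Dvd.intro_left _ rfl)
    have h3 : Associated (gcd (y * g) (y * x ^ n)) (y * gcd g (x ^ n)) := gcd_mul_left' _ _ _
    exact (h2.trans h3.dvd).trans (mul_dvd_mul_left y hge.dvd)

/-- **Lemma B.** -/
theorem lemmaB : ∃ C : ℝ, 0 < C ∧ ∀ (n : ℕ) (ρ : ℝ), 0 < ρ → ∀ T : Finset (Fin n → Fin S.N),
    (∀ a ∈ T, S.r1 a ≤ ρ) → (T.card : ℝ) ≤ C * ρ ^ (2 * S.d) := by
  classical
  obtain ⟨J, p, hp, hpx⟩ := exists_primes S.pi_ne_zero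
  have hK := S.hK
  refine ⟨1 + (18 * S.K ^ 3) ^ (2 * S.d) * 2 ^ J, by positivity, ?_⟩
  intro n ρ hρ T hT
  have hC : 0 ≤ (18 * S.K ^ 3) ^ (2 * S.d) * 2 ^ J := by positivity
  rcases lt_or_ge ρ 1 with hρ1 | hρ1
  · have : T = ∅ := by
      rw [Finset.eq_empty_iff_forall_notMem]
      intro a ha
      have h1 := hT a ha
      have h2 := S.one_le_r1 a
      linarith
    rw [this, Finset.card_empty]
    push_cast
    positivity
  rcases le_or_gt (S.A n) ρ with hA | hA
  · have h1 : T.card ≤ S.N ^ n := by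
      have h2 := Finset.card_le_univ T
      rwa [Fintype.card_fun, Fintype.card_fin, Fintype.card_fin] at h2
    calc (T.card : ℝ) ≤ (S.N : ℝ) ^ n := by exact_mod_cast h1
      _ = S.A n ^ S.d := (S.A_pow n).symm
      _ ≤ ρ ^ S.d := pow_le_pow_left₀ (S.A_pos n).le hA _
      _ ≤ ρ ^ (2 * S.d) := pow_le_pow_right₀ hρ1 (by omega)
      _ ≤ (1 + (18 * S.K ^ 3) ^ (2 * S.d) * 2 ^ J) * ρ ^ (2 * S.d) := by
          apply le_mul_of_one_le_left (by positivity)
          linarith
  · -- the main case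
    set E := Fintype.piFinset (fun _ : Fin J => Finset.range (n + 1)) with hE
    set P : (Fin J → ℕ) → R := fun e => ∏ j, p j ^ e j with hP
    have hP0 : ∀ e, P e ≠ 0 := fun e =>
      Finset.prod_ne_zero_iff.2 (fun j _ => pow_ne_zero _ (hp j).ne_zero)
    set Bf : Finset R := (S.finite_ball ρ).toFinset with hBf
    have hBmem : ∀ x, x ∈ Bf ↔ S.nrm x ≤ ρ := fun x => by
      rw [hBf, Set.Finite.mem_toFinset]; rfl
    set F : (Fin J → ℕ) → Finset R := fun e => Bf.filter (fun x => P e ∣ x) with hF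
    set W : (Fin J → ℕ) → Finset (R × R) := fun e => ((F e) ×ˢ (F e)).filter (fun v => v.2 ≠ 0 ∧
      ∀ y, S.π ^ n ∣ y * v.2 → S.π ^ n ∣ y * P e) with hW
    set U : R × R → Finset (Fin n → Fin S.N) := fun v =>
      T.filter (fun a => S.π ^ n ∣ v.1 - S.val a * v.2) with hU
    have hcover : T ⊆ E.biUnion (fun e => (W e).biUnion U) := by
      intro a ha
      have hr := hT a ha
      have hv := S.sv_mem a
      have hv0 := S.sv_ne a
      set v := S.sv a with hvdef
      have hn1 : S.nrm v.1 ≤ ρ := (le_max_left (S.nrm v.1) (S.nrm v.2)).trans hr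
      have hn2 : S.nrm v.2 ≤ ρ := (le_max_right (S.nrm v.1) (S.nrm v.2)).trans hr
      have hv2 : v.2 ≠ 0 := by
        intro h2
        have h3 : S.π ^ n ∣ v.1 - S.val a * v.2 := hv
        rw [h2, mul_zero, sub_zero] at h3
        obtain ⟨x, hx⟩ := h3
        have hx0 : x ≠ 0 := by
          rintro rfl
          exact hv0 (Prod.ext (by rw [hx, mul_zero]; rfl) h2)
        rw [hx, S.nrm_pi_pow] at hn1
        have h4 := S.one_le x hx0
        have h5 := S.A_pos n
        nlinarith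
      obtain ⟨e, he, hg, hpi, hy⟩ := exists_gcd hp hpx n v.2
      have hf : P e ∣ v.1 := by
        have h3 : P e ∣ v.1 - S.val a * v.2 := hpi.trans hv
        have h4 := dvd_add h3 (Dvd.dvd.mul_left hg (S.val a))
        rwa [sub_add_cancel] at h4
      rw [Finset.mem_biUnion]
      refine ⟨e, he, ?_⟩
      rw [Finset.mem_biUnion]
      refine ⟨v, ?_, ?_⟩
      · simp only [hW, hF, Finset.mem_filter, Finset.mem_product, hBmem]
        exact ⟨⟨⟨hn1, hf⟩, hn2, hg⟩, hv2, hy⟩
      · simp only [hU, Finset.mem_filter]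
        exact ⟨ha, hv⟩
    have hUcard : ∀ e, ∀ v ∈ W e, (U v).card ≤ q (P e) := by
      intro e v hv
      simp only [hW, Finset.mem_filter] at hv
      apply S.card_fibre (hP0 e)
      intro a ha a' ha'
      simp only [hU, Finset.mem_filter] at ha ha'
      apply hv.2.2
      have h1 := dvd_sub ha'.2 ha.2
      convert h1 using 1
      ring
    have hWe : ∀ e ∈ E, (((W e).biUnion U).card : ℝ) ≤
        (18 * S.K ^ 3 * ρ) ^ (2 * S.d) * ∏ j, ((1 : ℝ) / 2) ^ e j := by
      intro e _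
      rcases (W e).eq_empty_or_nonempty with hemp | ⟨v, hv⟩
      · rw [hemp, Finset.biUnion_empty, Finset.card_empty]
        push_cast
        positivity
      · have hq : (0 : ℝ) < q (P e) := by exact_mod_cast S.q_pos (hP0 e)
        have hv' := hv
        simp only [hW, hF, Finset.mem_filter, Finset.mem_product, hBmem] at hv'
        have h1 := S.card_mul_q_le (hP0 e) (ρ := ρ) (F e) (by
          intro x hx
          simp only [hF, Finset.mem_filter, hBmem] at hx
          exact ⟨hx.2, hx.1⟩) ⟨v.2, hv'.2.1, hv'.1.2.2, hv'.1.2.1⟩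
        have h2 : ((W e).card : ℝ) ≤ ((F e).card : ℝ) ^ 2 := by
          have : (W e).card ≤ (F e).card * (F e).card := by
            rw [← Finset.card_product]
            exact Finset.card_le_card (Finset.filter_subset _ _)
          rw [sq]
          exact_mod_cast this
        have h3 : (((W e).biUnion U).card : ℝ) ≤ (W e).card * q (P e) := by
          have : ((W e).biUnion U).card ≤ (W e).card * q (P e) :=
            Finset.card_biUnion_le_card_mul _ _ _ (hUcard e)
          exact_mod_cast this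
        have h4 : ∏ j, (2 : ℝ) ^ e j ≤ q (P e) := by
          have := S.prod_le_q p hp e Finset.univ
          exact_mod_cast this
        have h5 : (0 : ℝ) < ∏ j, (2 : ℝ) ^ e j := Finset.prod_pos (fun j _ => by positivity)
        have h6 : ∏ j, ((1 : ℝ) / 2) ^ e j = 1 / ∏ j, (2 : ℝ) ^ e j := by
          rw [one_div (∏ j, (2 : ℝ) ^ e j), ← Finset.prod_inv_distrib]
          apply Finset.prod_congr rfl
          intro j _
          rw [one_div, inv_pow]
        rw [h6, mul_one_div, le_div_iff₀ h5]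
        calc (((W e).biUnion U).card : ℝ) * ∏ j, (2 : ℝ) ^ e j
            ≤ ((F e).card : ℝ) ^ 2 * q (P e) * q (P e) := by
              apply mul_le_mul _ h4 h5.le (by positivity)
              exact h3.trans (mul_le_mul_of_nonneg_right h2 hq.le)
          _ = ((F e).card * q (P e)) ^ 2 := by ring
          _ ≤ ((18 * S.K ^ 3 * ρ) ^ S.d) ^ 2 := pow_le_pow_left₀ (by positivity) h1 2
          _ = (18 * S.K ^ 3 * ρ) ^ (2 * S.d) := by rw [← pow_mul, mul_comm S.d 2]
    have hgeo : ∀ m : ℕ, ∑ k ∈ Finset.range m, ((1 : ℝ) / 2) ^ k ≤ 2 := by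
      intro m
      have h1 : ∀ m : ℕ, ∑ k ∈ Finset.range m, ((1 : ℝ) / 2) ^ k = 2 - 2 * (1 / 2) ^ m := by
        intro m
        induction m with
        | zero => simp
        | succ m ih => rw [Finset.sum_range_succ, ih, pow_succ]; ring
      rw [h1]
      have : (0 : ℝ) ≤ 2 * (1 / 2) ^ m := by positivity
      linarith
    have hsum : ∑ e ∈ E, ∏ j, ((1 : ℝ) / 2) ^ e j ≤ 2 ^ J := by
      rw [hE, ← Finset.prod_univ_sum]
      calc ∏ _j : Fin J, ∑ k ∈ Finset.range (n + 1), ((1 : ℝ) / 2) ^ k ≤ ∏ _j : Fin J, (2 : ℝ) :=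
            Finset.prod_le_prod (fun _ _ => Finset.sum_nonneg (fun _ _ => by positivity))
              (fun _ _ => hgeo _)
        _ = 2 ^ J := by simp
    have h1 : (T.card : ℝ) ≤ ∑ e ∈ E, (((W e).biUnion U).card : ℝ) := by
      have := (Finset.card_le_card hcover).trans Finset.card_biUnion_le
      exact_mod_cast this
    calc (T.card : ℝ) ≤ ∑ e ∈ E, (((W e).biUnion U).card : ℝ) := h1
      _ ≤ ∑ e ∈ E, (18 * S.K ^ 3 * ρ) ^ (2 * S.d) * ∏ j, ((1 : ℝ) / 2) ^ e j :=
          Finset.sum_le_sum hWe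
      _ = (18 * S.K ^ 3 * ρ) ^ (2 * S.d) * ∑ e ∈ E, ∏ j, ((1 : ℝ) / 2) ^ e j := by
          rw [Finset.mul_sum]
      _ ≤ (18 * S.K ^ 3 * ρ) ^ (2 * S.d) * 2 ^ J :=
          mul_le_mul_of_nonneg_left hsum (by positivity)
      _ = (18 * S.K ^ 3) ^ (2 * S.d) * 2 ^ J * ρ ^ (2 * S.d) := by rw [mul_pow]; ring
      _ ≤ (1 + (18 * S.K ^ 3) ^ (2 * S.d) * 2 ^ J) * ρ ^ (2 * S.d) := by
          apply mul_le_mul_of_nonneg_right _ (by positivity)
          linarith

end UFD

end Setting

end Pool.Agent.X246.AFSR
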