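import Pool.Agent.X246.AFSR.Basic

/-!
# A short pair with unit second coordinate (transference)
-/

set_option autoImplicit false

namespace Pool.Agent.X246.AFSR

namespace Setting

variable {R : Type} [CommRing R] (S : Setting R)

/-- The determinant of two pairs. -/
def det2 (v w : R × R) : R := v.1 * w.2 - w.1 * v.2

theorem det2_dvd {n : ℕ} {a : Fin n → Fin S.N} {v w : R × R} (hv : v ∈ S.Lat a)
    (hw : w ∈ S.Lat a) : S.π ^ n ∣ det2 v w := by
  obtain ⟨x, hx⟩ := (show S.π ^ n ∣ v.1 - S.val a * v.2 from hv)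
  obtain ⟨y, hy⟩ := (show S.π ^ n ∣ w.1 - S.val a * w.2 from hw)
  refine ⟨x * w.2 - y * v.2, ?_⟩
  unfold det2
  linear_combination w.2 * hx - v.2 * hy

include S in
theorem exists_int_mul [IsDomain R] (δ : R) (hδ : δ ≠ 0) : ∃ M : ℕ, M ≠ 0 ∧ δ ∣ (M : R) := by
  haveI : Module.Finite ℤ R := Module.Finite.of_basis S.b
  have h1 : (Ideal.span {δ}).comap (algebraMap ℤ R) ≠ ⊥ :=
    Ideal.comap_ne_bot_of_integral_mem hδ (Ideal.mem_span_singleton_self δ)
      (Algebra.IsIntegral.isIntegral δ)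
  obtain ⟨k, hk, hk0⟩ := Submodule.exists_mem_ne_zero_of_ne_bot h1
  rw [Ideal.mem_comap, Ideal.mem_span_singleton] at hk
  refine ⟨k.natAbs, by omega, ?_⟩
  have h2 : ((k.natAbs : ℤ) : R) = k ∨ ((k.natAbs : ℤ) : R) = -k := by
    rcases Int.natAbs_eq k with h | h
    · left; rw [← h]
    · right
      have : (k.natAbs : ℤ) = -k := by omega
      rw [this]; push_cast; ring
  have h3 : ((k.natAbs : ℕ) : R) = ((k.natAbs : ℤ) : R) := (Int.cast_natCast _).symm
  rw [h3]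
  rcases h2 with h | h
  · rw [h]; simpa using hk
  · rw [h, dvd_neg]; simpa using hk

/-- A submodule of rank at most `d`: many elements are congruent modulo `q`. -/
theorem rank_pigeon [IsDomain R] (v : R × R) (hv : v ≠ 0) (M : Submodule ℤ (R × R))
    (hM : ∀ w ∈ M, det2 v w = 0) {q : ℕ} (hq : 1 ≤ q) (s : Finset (R × R))
    (hs : ∀ w ∈ s, w ∈ M) (hcard : q ^ S.d < s.card) :
    ∃ x ∈ s, ∃ y ∈ s, x ≠ y ∧ ∃ z ∈ M, x - y = ((q : R) * z.1, (q : R) * z.2) := by
  haveI : Module.Finite ℤ R := Module.Finite.of_basis S.b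
  haveI : Module.Free ℤ R := Module.Free.of_basis S.b
  haveI : IsNoetherian ℤ (R × R) := inferInstance
  haveI : Module.Finite ℤ M := inferInstance
  haveI : Module.Free ℤ M := inferInstance
  have hrank : Module.finrank ℤ M ≤ S.d := by
    have h0 : Module.finrank ℤ R = S.d := by
      rw [Module.finrank_eq_card_basis S.b, Fintype.card_fin]
    by_cases h1 : v.1 = 0
    · have h2 : v.2 ≠ 0 := fun h2 => hv (Prod.ext h1 h2)
      rw [← h0]
      refine LinearMap.finrank_le_finrank_of_injective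
        (f := (LinearMap.snd ℤ R R).comp M.subtype) ?_
      rw [injective_iff_map_eq_zero]
      intro w hw
      have h3 : (w : R × R).2 = 0 := hw
      have h4 := hM _ w.2
      unfold det2 at h4
      rw [h3, mul_zero, zero_sub, neg_eq_zero] at h4
      have h5 := (mul_eq_zero.1 h4).resolve_right h2
      exact Subtype.ext (Prod.ext h5 h3)
    · rw [← h0]
      refine LinearMap.finrank_le_finrank_of_injective
        (f := (LinearMap.fst ℤ R R).comp M.subtype) ?_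
      rw [injective_iff_map_eq_zero]
      intro w hw
      have h3 : (w : R × R).1 = 0 := hw
      have h4 := hM _ w.2
      unfold det2 at h4
      rw [h3, zero_mul, sub_zero] at h4
      have h5 := (mul_eq_zero.1 h4).resolve_left h1
      exact Subtype.ext (Prod.ext h3 h5)
  set e := Module.finBasis ℤ M with he
  haveI : NeZero q := ⟨by omega⟩
  classical
  set F : R × R → (Fin (Module.finrank ℤ M) → ZMod q) := fun w =>
    if h : w ∈ M then fun i => ((e.repr ⟨w, h⟩ i : ℤ) : ZMod q) else 0 with hF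
  have hlt : (Finset.univ : Finset (Fin (Module.finrank ℤ M) → ZMod q)).card < s.card := by
    rw [Finset.card_univ, Fintype.card_fun, ZMod.card, Fintype.card_fin]
    exact lt_of_le_of_lt (Nat.pow_le_pow_right hq hrank) hcard
  obtain ⟨x, hx, y, hy, hxy, hFxy⟩ := Finset.exists_ne_map_eq_of_card_lt_of_maps_to hlt
    (f := F) (fun _ _ => Finset.mem_coe.2 (Finset.mem_univ _))
  refine ⟨x, hx, y, hy, hxy, ?_⟩
  have hxM := hs x hx
  have hyM := hs y hy
  simp only [hF, hxM, hyM, dif_pos] at hFxy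
  have hdiv : ∀ i, (q : ℤ) ∣ e.repr ⟨x, hxM⟩ i - e.repr ⟨y, hyM⟩ i := by
    intro i
    have := congrFun hFxy i
    rw [eq_comm, ZMod.intCast_eq_intCast_iff_dvd_sub] at this
    exact this
  choose c hc using hdiv
  refine ⟨(∑ i, c i • e i : M), Submodule.coe_mem _, ?_⟩
  have h1 : (⟨x, hxM⟩ : M) - ⟨y, hyM⟩ = (q : ℤ) • (∑ i, c i • e i : M) := by
    apply e.repr.injective
    ext i
    rw [map_sub, Finsupp.sub_apply, hc i, map_smul, Finsupp.smul_apply, map_sum]
    simp [Finsupp.single_apply]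
  have h2 := congrArg (Subtype.val) h1
  change x - y = _ at h2
  rw [h2]
  rw [Submodule.coe_smul]
  ext
  · simp [zsmul_eq_mul]
  · simp [zsmul_eq_mul]

/-- Reduction modulo an integer. -/
theorem exists_box (m : ℕ) (hm : 1 ≤ m) (x : R) : ∃ x' ∈ S.box m, ∃ y, x = x' + (m : R) * y := by
  refine ⟨S.b.equivFun.symm (fun i => S.b.repr x i % m), ?_,
    S.b.equivFun.symm (fun i => S.b.repr x i / m), ?_⟩
  · rw [mem_box]
    intro i
    have h1 : S.b.repr (S.b.equivFun.symm (fun i => S.b.repr x i % m)) i = S.b.repr x i % m := by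
      rw [← Module.Basis.equivFun_apply, LinearEquiv.apply_symm_apply]
    rw [h1]
    have hm' : (0 : ℤ) < m := by exact_mod_cast hm
    exact ⟨Int.emod_nonneg _ hm'.ne', Int.emod_lt_of_pos _ hm'⟩
  · have h2 : (m : R) * S.b.equivFun.symm (fun i => S.b.repr x i / m) =
        S.b.equivFun.symm (fun i => (m : ℤ) * (S.b.repr x i / m)) := by
      rw [show (fun i => (m : ℤ) * (S.b.repr x i / m)) = (m : ℤ) • (fun i => S.b.repr x i / m) from
        rfl, map_smul, zsmul_eq_mul]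
      push_cast
      rfl
    rw [h2, ← map_add]
    apply S.b.equivFun.injective
    rw [LinearEquiv.apply_symm_apply]
    ext i
    rw [Pi.add_apply, Module.Basis.equivFun_apply]
    exact (Int.emod_add_mul_ediv _ _).symm

theorem r1_sq_le [IsDomain R] {n : ℕ} (a : Fin n → Fin S.N) :
    S.r1 a ≤ 2 * S.K * √(S.A n) := by
  have hA := S.one_le_A n
  have hs1 : 1 ≤ √(S.A n) := by rw [Real.one_le_sqrt]; exact hA
  set m := ⌊√(S.A n)⌋₊ + 1 with hm
  have h1 : √(S.A n) < m := by rw [hm]; push_cast; exact Nat.lt_floor_add_one _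
  have h2 : (m : ℝ) ≤ 2 * √(S.A n) := by
    rw [hm]; push_cast
    have := Nat.floor_le (zero_le_one.trans hs1)
    linarith
  have h3 : S.A n < (m : ℝ) ^ 2 := by
    calc S.A n = √(S.A n) ^ 2 := (Real.sq_sqrt (zero_le_one.trans hA)).symm
      _ < (m : ℝ) ^ 2 := pow_lt_pow_left₀ h1 (by linarith) (by norm_num)
  have h4 : S.N ^ n * 1 < m ^ (2 * S.d) := by
    rw [mul_one]
    have : ((S.N ^ n : ℕ) : ℝ) < ((m ^ (2 * S.d) : ℕ) : ℝ) := by
      push_cast
      rw [← S.A_pow, pow_mul]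
      exact pow_lt_pow_left₀ h3 (by linarith) (by have := S.hd; omega)
    exact_mod_cast this
  obtain ⟨s, hs, hbox, hlat⟩ := S.pigeon a h4
  obtain ⟨v, hv, w, hw, hvw⟩ := Finset.one_lt_card.1 hs
  have h5 := S.sv_min a (hlat v hv w hw) (sub_ne_zero.2 hvw)
  have h6 := S.nrm2_sub_box (hbox v hv) (hbox w hw)
  have hK := S.Kpos
  calc S.r1 a ≤ S.K * m := h5.trans h6
    _ ≤ 2 * S.K * √(S.A n) := by nlinarith

/-- The lattice as a submodule over the integers. -/
def LatM {n : ℕ} (a : Fin n → Fin S.N) (v : R × R) : Submodule ℤ (R × R) where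
  carrier := {w | w ∈ S.Lat a ∧ det2 v w = 0}
  add_mem' := by
    rintro x y ⟨hx, hx'⟩ ⟨hy, hy'⟩
    refine ⟨?_, ?_⟩
    · have := dvd_add (show S.π ^ n ∣ x.1 - S.val a * x.2 from hx)
        (show S.π ^ n ∣ y.1 - S.val a * y.2 from hy)
      change S.π ^ n ∣ (x.1 + y.1) - S.val a * (x.2 + y.2)
      convert this using 1
      ring
    · unfold det2 at hx' hy' ⊢
      rw [Prod.fst_add, Prod.snd_add]
      linear_combination hx' + hy'
  zero_mem' := by
    refine ⟨?_, ?_⟩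
    · change S.π ^ n ∣ 0 - S.val a * 0
      simp
    · simp [det2]
  smul_mem' := by
    rintro c x ⟨hx, hx'⟩
    refine ⟨?_, ?_⟩
    · have := Dvd.dvd.mul_left (show S.π ^ n ∣ x.1 - S.val a * x.2 from hx) (c : R)
      change S.π ^ n ∣ (c • x.1) - S.val a * (c • x.2)
      rw [zsmul_eq_mul, zsmul_eq_mul]
      convert this using 1
      ring
    · unfold det2 at hx' ⊢
      rw [Prod.smul_fst, Prod.smul_snd, zsmul_eq_mul, zsmul_eq_mul]
      linear_combination (c : R) * hx'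

theorem nrm2_nat (m : ℕ) (v : R × R) : S.nrm2 ((m : R) * v.1, (m : R) * v.2) = m * S.nrm2 v := by
  unfold nrm2
  rw [S.nrm_nat, S.nrm_nat, mul_max_of_nonneg _ _ (Nat.cast_nonneg m)]

/-- A second vector. -/
theorem exists_second [IsDomain R] {n : ℕ} (a : Fin n → Fin S.N) :
    ∃ w ∈ S.Lat a, det2 (S.sv a) w ≠ 0 ∧ S.nrm2 w * S.r1 a ≤ 6 * S.K ^ 2 * S.A n := by
  have hA := S.one_le_A n
  have hK := S.hK
  set A := S.A n with hAdef
  set K := S.K with hKdef
  set r := S.r1 a with hr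
  have hr1 : 1 ≤ r := S.one_le_r1 a
  have hrA : r ≤ 2 * K * √A := S.r1_sq_le a
  have hs1 : 1 ≤ √A := by rw [Real.one_le_sqrt]; exact hA
  have hsq : √A ^ 2 = A := Real.sq_sqrt (zero_le_one.trans hA)
  have hr2 : r ^ 2 ≤ 4 * K ^ 2 * A := by
    calc r ^ 2 ≤ (2 * K * √A) ^ 2 := pow_le_pow_left₀ (by linarith) hrA 2
      _ = 4 * K ^ 2 * A := by rw [mul_pow, mul_pow, hsq]; ring
  have hrA' : r ≤ 2 * K * A := by
    refine hrA.trans ?_
    have : √A ≤ A := by nlinarith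
    nlinarith
  have hrpos : 0 < r := by linarith
  set B := 4 * K * A / r with hB
  have hBpos : 0 < B := by positivity
  have hBr : B * r = 4 * K * A := by rw [hB]; field_simp
  set m := ⌈B⌉₊ with hm
  have hm1 : B ≤ m := Nat.le_ceil B
  have hm2 : (m : ℝ) < B + 1 := Nat.ceil_lt_add_one hBpos.le
  set q := ⌊K * m / r⌋₊ + 1 with hq
  have hq1 : K * m / r < q := by rw [hq]; push_cast; exact Nat.lt_floor_add_one _
  have hq2 : (q : ℝ) ≤ K * m / r + 1 := by
    rw [hq]; push_cast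
    have := Nat.floor_le (show 0 ≤ K * m / r by positivity)
    linarith
  have hmpos : (0 : ℝ) < m := lt_of_lt_of_le hBpos hm1
  have hAq : A * q < (m : ℝ) ^ 2 := by
    have e1 : A * (K * m / r) = m * B / 4 := by rw [hB]; field_simp
    have e2 : m * B / 4 ≤ (m : ℝ) ^ 2 / 4 := by nlinarith
    have e3 : 4 * A ≤ B ^ 2 := by
      rw [hB, div_pow, le_div_iff₀ (by positivity)]
      nlinarith
    have e4 : B ^ 2 ≤ (m : ℝ) ^ 2 := pow_le_pow_left₀ hBpos.le hm1 2
    have e5 : A * q ≤ A * (K * m / r + 1) := mul_le_mul_of_nonneg_left hq2 (by linarith)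
    have e6 : (0 : ℝ) < (m : ℝ) ^ 2 := by positivity
    nlinarith
  have hpig : S.N ^ n * q ^ S.d < m ^ (2 * S.d) := by
    have : ((S.N ^ n * q ^ S.d : ℕ) : ℝ) < ((m ^ (2 * S.d) : ℕ) : ℝ) := by
      push_cast
      rw [← S.A_pow, pow_mul, ← mul_pow]
      exact pow_lt_pow_left₀ hAq (by positivity) (by have := S.hd; omega)
    exact_mod_cast this
  obtain ⟨s, hs, hbox, hlat⟩ := S.pigeon a hpig
  have hne : s.Nonempty := by
    rw [← Finset.card_pos]
    exact lt_of_le_of_lt (Nat.zero_le _) hs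
  obtain ⟨w0, hw0⟩ := hne
  have hex : ∃ w ∈ s, det2 (S.sv a) (w - w0) ≠ 0 := by
    by_contra hcon
    push Not at hcon
    classical
    obtain ⟨x, hx, y, hy, hxy, z, hz, hxyz⟩ := S.rank_pigeon (S.sv a) (S.sv_ne a)
      (S.LatM a (S.sv a)) (fun w hw => hw.2) (q := q) (by omega)
      (s.image (fun w => w - w0)) (by
        intro w hw
        rw [Finset.mem_image] at hw
        obtain ⟨w, hw, rfl⟩ := hw
        exact ⟨hlat w hw w0 hw0, hcon w hw⟩) (by
        rw [Finset.card_image_of_injective _ (sub_left_injective)]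
        exact hs)
    rw [Finset.mem_image] at hx hy
    obtain ⟨x, hx, rfl⟩ := hx
    obtain ⟨y, hy, rfl⟩ := hy
    have hz0 : z ≠ 0 := by
      rintro rfl
      apply hxy
      have : x - w0 - (y - w0) = 0 := by rw [hxyz]; simp
      exact sub_eq_zero.1 this
    have h1 : r ≤ S.nrm2 z := S.sv_min a hz.1 hz0
    have h2 : S.nrm2 (x - y) = q * S.nrm2 z := by
      rw [← S.nrm2_nat, ← hxyz]
      congr 1
      abel
    have h3 := S.nrm2_sub_box (hbox x hx) (hbox y hy)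
    rw [h2] at h3
    have h4 : K * m < q * r := by
      rw [div_lt_iff₀ hrpos] at hq1
      exact hq1
    have h5 : (q : ℝ) * r ≤ q * S.nrm2 z := mul_le_mul_of_nonneg_left h1 (Nat.cast_nonneg _)
    linarith
  obtain ⟨w, hw, hdet⟩ := hex
  refine ⟨w - w0, hlat w hw w0 hw0, hdet, ?_⟩
  have h3 := S.nrm2_sub_box (hbox w hw) (hbox w0 hw0)
  calc S.nrm2 (w - w0) * r ≤ (K * m) * r := mul_le_mul_of_nonneg_right h3 hrpos.le
    _ ≤ K * (B + 1) * r := by
        apply mul_le_mul_of_nonneg_right _ hrpos.le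
        apply mul_le_mul_of_nonneg_left hm2.le (by linarith)
    _ = K * (B * r) + K * r := by ring
    _ = 4 * K ^ 2 * A + K * r := by rw [hBr]; ring
    _ ≤ 6 * K ^ 2 * A := by nlinarith

theorem Lat.smul {n : ℕ} {a : Fin n → Fin S.N} (c : R) {v : R × R} (hv : v ∈ S.Lat a) :
    (c * v.1, c * v.2) ∈ S.Lat a := by
  have := Dvd.dvd.mul_left (show S.π ^ n ∣ v.1 - S.val a * v.2 from hv) c
  change S.π ^ n ∣ (c * v.1) - S.val a * (c * v.2)
  convert this using 1
  ring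

/-- **Lemma A.** -/
theorem lemmaA [IsDomain R] {n : ℕ} (a : Fin n → Fin S.N) :
    ∃ u ∈ S.Lat a, S.π ∣ u.2 - 1 ∧ S.nrm2 u * S.r1 a ≤ 10 * S.K ^ 4 * S.N * S.A n := by
  obtain ⟨v2, hv2, hdet, hnv2⟩ := S.exists_second a
  have hv1 := S.sv_mem a
  set v1 := S.sv a with hv1def
  obtain ⟨u, hu⟩ : ∃ u : R × R, u = (S.val a, 1) := ⟨_, rfl⟩
  have huL : u ∈ S.Lat a := by
    rw [hu]
    change S.π ^ n ∣ S.val a - S.val a * 1
    simp
  obtain ⟨δ, hδ⟩ := S.det2_dvd hv1 hv2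
  obtain ⟨x, hx⟩ := S.det2_dvd huL hv2
  obtain ⟨y, hy⟩ := S.det2_dvd hv1 huL
  have hδ0 : δ ≠ 0 := by rintro rfl; exact hdet (by rw [hδ, mul_zero])
  obtain ⟨M, hM0, δ', hδ'⟩ := S.exists_int_mul δ hδ0
  have hπ : S.π ^ n ≠ 0 := pow_ne_zero n S.pi_ne_zero
  have hMR : (M : R) ≠ 0 := S.natCast_ne_zero hM0
  have c1 : δ * u.1 = x * v1.1 + y * v2.1 := by
    apply mul_left_cancel₀ hπ
    unfold det2 at hδ hx hy
    linear_combination (-u.1) * hδ + v1.1 * hx + v2.1 * hy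
  have c2 : δ * u.2 = x * v1.2 + y * v2.2 := by
    apply mul_left_cancel₀ hπ
    unfold det2 at hδ hx hy
    linear_combination (-u.2) * hδ + v1.2 * hx + v2.2 * hy
  have hMN : 1 ≤ M * S.N := Nat.mul_pos (Nat.pos_of_ne_zero hM0) (by have := S.hN; omega)
  obtain ⟨X, hX, X', hXX⟩ := S.exists_box (M * S.N) hMN (δ' * x)
  obtain ⟨Y, hY, Y', hYY⟩ := S.exists_box (M * S.N) hMN (δ' * y)
  push_cast at hXX hYY
  obtain ⟨w, hw⟩ : ∃ w : R × R, w = (u.1 - (S.N : R) * (X' * v1.1 + Y' * v2.1),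
    u.2 - (S.N : R) * (X' * v1.2 + Y' * v2.2)) := ⟨_, rfl⟩
  have e1 : (M : R) * w.1 = X * v1.1 + Y * v2.1 := by
    rw [hw]
    simp only
    linear_combination u.1 * hδ' + δ' * c1 + v1.1 * hXX + v2.1 * hYY
  have e2 : (M : R) * w.2 = X * v1.2 + Y * v2.2 := by
    rw [hw]
    simp only
    linear_combination u.2 * hδ' + δ' * c2 + v1.2 * hXX + v2.2 * hYY
  refine ⟨w, ?_, ?_, ?_⟩
  · have h1 := Dvd.dvd.mul_left (show S.π ^ n ∣ v1.1 - S.val a * v1.2 from hv1) ((S.N : R) * X')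
    have h2 := Dvd.dvd.mul_left (show S.π ^ n ∣ v2.1 - S.val a * v2.2 from hv2) ((S.N : R) * Y')
    have h3 := dvd_sub (dvd_sub (show S.π ^ n ∣ u.1 - S.val a * u.2 from huL) h1) h2
    change S.π ^ n ∣ w.1 - S.val a * w.2
    rw [hw]
    simp only
    convert h3 using 1
    ring
  · rw [hw, hu]
    simp only
    have h1 := Dvd.dvd.mul_right S.pi_dvd (X' * v1.2 + Y' * v2.2)
    rw [← dvd_neg] at h1
    convert h1 using 1
    ring
  · have hK := S.hK
    have hr1 : 1 ≤ S.r1 a := S.one_le_r1 a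
    have hMpos : (0 : ℝ) < M := by exact_mod_cast Nat.pos_of_ne_zero hM0
    have hN := S.Npos
    have hv1n : S.nrm2 v1 = S.r1 a := rfl
    have hnX := S.nrm_box hX
    have hnY := S.nrm_box hY
    push_cast at hnX hnY
    have hv2n := S.nrm2_nonneg v2
    have key : ∀ p1 p2 p : R, (M : R) * p = X * p1 + Y * p2 → S.nrm p1 ≤ S.nrm2 v1 →
        S.nrm p2 ≤ S.nrm2 v2 → S.nrm p ≤ S.K ^ 2 * S.N * (S.nrm2 v1 + S.nrm2 v2) := by
      intro p1 p2 p hp hp1 hp2
      have g1 : M * S.nrm p ≤ S.K * (S.nrm X * S.nrm p1) + S.K * (S.nrm Y * S.nrm p2) := by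
        rw [← S.nrm_nat, hp]
        exact (S.nrm_add _ _).trans (add_le_add (S.nrm_mul _ _) (S.nrm_mul _ _))
      have g2 : S.nrm X * S.nrm p1 ≤ S.K * (M * S.N) * S.nrm2 v1 :=
        mul_le_mul hnX hp1 (S.nrm_nonneg _) (by positivity)
      have g3 : S.nrm Y * S.nrm p2 ≤ S.K * (M * S.N) * S.nrm2 v2 :=
        mul_le_mul hnY hp2 (S.nrm_nonneg _) (by positivity)
      have g4 : M * S.nrm p ≤ M * (S.K ^ 2 * S.N * (S.nrm2 v1 + S.nrm2 v2)) := by
        calc M * S.nrm p ≤ S.K * (S.nrm X * S.nrm p1) + S.K * (S.nrm Y * S.nrm p2) := g1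
          _ ≤ S.K * (S.K * (M * S.N) * S.nrm2 v1) + S.K * (S.K * (M * S.N) * S.nrm2 v2) :=
              add_le_add (mul_le_mul_of_nonneg_left g2 (by linarith))
                (mul_le_mul_of_nonneg_left g3 (by linarith))
          _ = M * (S.K ^ 2 * S.N * (S.nrm2 v1 + S.nrm2 v2)) := by ring
      exact le_of_mul_le_mul_left g4 hMpos
    have k1 := key _ _ _ e1 (le_max_left (S.nrm v1.1) (S.nrm v1.2))
      (le_max_left (S.nrm v2.1) (S.nrm v2.2))
    have k2 := key _ _ _ e2 (le_max_right (S.nrm v1.1) (S.nrm v1.2))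
      (le_max_right (S.nrm v2.1) (S.nrm v2.2))
    have k3 : S.nrm2 w ≤ S.K ^ 2 * S.N * (S.nrm2 v1 + S.nrm2 v2) := max_le k1 k2
    have hr2 : S.r1 a ^ 2 ≤ 4 * S.K ^ 2 * S.A n := by
      have hA := S.one_le_A n
      calc S.r1 a ^ 2 ≤ (2 * S.K * √(S.A n)) ^ 2 :=
            pow_le_pow_left₀ (by linarith) (S.r1_sq_le a) 2
        _ = 4 * S.K ^ 2 * S.A n := by
            rw [mul_pow, mul_pow, Real.sq_sqrt (zero_le_one.trans hA)]; ring
    calc S.nrm2 w * S.r1 a ≤ S.K ^ 2 * S.N * (S.nrm2 v1 + S.nrm2 v2) * S.r1 a :=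
          mul_le_mul_of_nonneg_right k3 (by linarith)
      _ = S.K ^ 2 * S.N * (S.r1 a ^ 2 + S.nrm2 v2 * S.r1 a) := by rw [hv1n]; ring
      _ ≤ S.K ^ 2 * S.N * (4 * S.K ^ 2 * S.A n + 6 * S.K ^ 2 * S.A n) := by
          apply mul_le_mul_of_nonneg_left (add_le_add hr2 hnv2) (by positivity)
      _ = 10 * S.K ^ 4 * S.N * S.A n := by ring

end Setting

end Pool.Agent.X246.AFSR
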